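import Pool.Agent.Helper72_NA.Main

open Set Filter Topology
open scoped NNReal

namespace Pool.Agent.Helper72_NA

variable {𝕜 : Type*} [RCLike 𝕜] {X : Type*} [NormedAddCommGroup X] [NormedSpace 𝕜 X]
  [NormedSpace ℝ X] [IsScalarTower ℝ 𝕜 X]

omit [NormedSpace ℝ X] [IsScalarTower ℝ 𝕜 X] in
/-- a functional supporting a seminorm at a point -/
theorem exists_support {p : Seminorm 𝕜 X} {y : X} (hy : p y = 1) :
    ∃ g : Module.Dual 𝕜 X, g y = 1 ∧ ∀ x, ‖g x‖ ≤ p x := by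
  have hy0 : y ≠ 0 := by
    rintro rfl
    simp at hy
  let L := LinearEquiv.toSpanNonzeroSingleton 𝕜 X y hy0
  let f : Module.Dual 𝕜 (Submodule.span 𝕜 {y}) := L.symm.toLinearMap
  have hf : ∀ x, ‖f x‖ ≤ p x := by
    intro x
    obtain ⟨c, rfl⟩ := L.surjective x
    have h1 : f (L c) = c := L.symm_apply_apply c
    have h2 : ((L c : Submodule.span 𝕜 {y}) : X) = c • y := rfl
    rw [h1, h2, map_smul_eq_mul, hy, mul_one]
  obtain ⟨g, hg1, hg2⟩ := Module.Dual.exists_extension_of_le_seminorm (Submodule.span 𝕜 {y}) f hf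
  refine ⟨g, ?_, hg2⟩
  have h3 := hg1 (L 1)
  have h1 : f (L 1) = 1 := L.symm_apply_apply 1
  have h2 : ((L 1 : Submodule.span 𝕜 {y}) : X) = y := by
    show (1 : 𝕜) • y = y
    exact one_smul _ _
  rw [h1, h2] at h3
  exact h3

omit [IsScalarTower ℝ 𝕜 X] in
/-- a real functional supporting a seminorm at a point -/
theorem exists_support_real (p : Seminorm 𝕜 X) [IsScalarTower ℝ 𝕜 X] (u : X) :
    ∃ g : X →ₗ[ℝ] ℝ, g u = p u ∧ ∀ x, g x ≤ p x := by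
  have hsm : ∀ (t : ℝ) (x : X), p (t • x) = |t| * p x := by
    intro t x
    have : t • x = ((t : ℝ) : 𝕜) • x := (algebraMap_smul 𝕜 t x).symm
    rw [this, map_smul_eq_mul, RCLike.norm_ofReal]
  by_cases hu : u = 0
  · exact ⟨0, by simp [hu], fun x => by simp⟩
  · obtain ⟨g, hg1, hg2⟩ := exists_extension_of_le_sublinear
      (LinearPMap.mkSpanSingleton (K := ℝ) u (p u) hu) p
      (fun c hc x => by rw [hsm, abs_of_pos hc])
      (fun x y => map_add_le_add p x y) (by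
        rintro ⟨x, hx⟩
        obtain ⟨c, rfl⟩ := Submodule.mem_span_singleton.1 hx
        rw [LinearPMap.mkSpanSingleton'_apply]
        simp only [smul_eq_mul]
        rw [hsm]
        exact mul_le_mul_of_nonneg_right (le_abs_self c) (apply_nonneg p u))
    refine ⟨g, ?_, hg2⟩
    have h := hg1 ⟨u, Submodule.mem_span_singleton_self u⟩
    rw [LinearPMap.mkSpanSingleton_apply] at h
    exact h

omit [NormedSpace ℝ X] [IsScalarTower ℝ 𝕜 X] in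
/-- The two norms and their properties. -/
theorem exists_norms {k : X →L[𝕜] 𝕜} {e : X} (he : k e = 1) {p : Seminorm 𝕜 X} {R1 : ℝ}
    (hR1 : 0 < R1) (hp2 : ∀ x, ‖x‖ ≤ R1 * p x) {z : ℕ → X} {zs : ℕ → X →L[𝕜] 𝕜}
    (hz1 : ∀ j, ‖zs j‖ ≤ 1) :
    ∃ M1 M2 : Seminorm 𝕜 X,
      (∀ x, (M1 x) ^ 2 = ‖k x‖ ^ 2 + (p (PL k e x)) ^ 2) ∧
      (∀ x, 2 * ‖k x‖ ≤ M2 x) ∧
      (∀ x, M2 x ≤ p (PL k e x) / 2 + 2 * ‖k x‖) ∧
      (∀ j, ∃ c : ℝ, 0 < c ∧ ∀ u v, c * (sF 𝕜 z j (PL k e v) - sF 𝕜 z j (PL k e u)) ^ 2 ≤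
        2 * (M2 u) ^ 2 + 2 * (M2 v) ^ 2 - (M2 (u + v)) ^ 2) ∧
      (∀ j, ∃ c : ℝ, 0 < c ∧ ∀ u v, c * ‖zs j (PL k e v) - zs j (PL k e u)‖ ^ 2 ≤
        2 * (M2 u) ^ 2 + 2 * (M2 v) ^ 2 - (M2 (u + v)) ^ 2) := by
  obtain ⟨θ, hθv⟩ : ∃ θ : ℝ≥0, (θ : ℝ) = 1 / (6 * R1) := ⟨⟨1 / (6 * R1), by positivity⟩, rfl⟩
  have hθpos : 0 < (θ : ℝ) := by rw [hθv]; positivity
  have hτ1 : ∀ n x, sF 𝕜 z n x ≤ ‖x‖ := sF_le z
  have hτ2 : ∀ n x, absF (zs n) x ≤ ‖x‖ := fun n x => by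
    rw [absF_apply]
    calc ‖zs n x‖ ≤ ‖zs n‖ * ‖x‖ := (zs n).le_opNorm x
      _ ≤ 1 * ‖x‖ := by gcongr; exact hz1 n
      _ = ‖x‖ := one_mul _
  obtain ⟨q1, hq1⟩ : ∃ q1 : Seminorm 𝕜 X, q1 = geoComb θ (sF 𝕜 z) hτ1 := ⟨_, rfl⟩
  obtain ⟨q2, hq2⟩ : ∃ q2 : Seminorm 𝕜 X, q2 = geoComb θ (fun n => absF (zs n)) hτ2 := ⟨_, rfl⟩
  have hq1le : ∀ x, q1 x ≤ 2 * θ * ‖x‖ := fun x => by rw [hq1]; exact geoComb_le θ _ hτ1 x
  have hq2le : ∀ x, q2 x ≤ 2 * θ * ‖x‖ := fun x => by rw [hq2]; exact geoComb_le θ _ hτ2 x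
  have hq1key : ∀ (n : ℕ) (u v : X), ((θ : ℝ) * (1 / 2) ^ n) ^ 2 * (2 * (sF 𝕜 z n u) ^ 2 +
      2 * (sF 𝕜 z n v) ^ 2 - (sF 𝕜 z n (u + v)) ^ 2) ≤
      2 * (q1 u) ^ 2 + 2 * (q1 v) ^ 2 - (q1 (u + v)) ^ 2 := by
    intro n u v
    rw [hq1]; exact geoComb_key hτ1 n u v
  have hq2key : ∀ (n : ℕ) (u v : X), ((θ : ℝ) * (1 / 2) ^ n) ^ 2 * (2 * ‖zs n u‖ ^ 2 +
      2 * ‖zs n v‖ ^ 2 - ‖zs n (u + v)‖ ^ 2) ≤
      2 * (q2 u) ^ 2 + 2 * (q2 v) ^ 2 - (q2 (u + v)) ^ 2 := by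
    intro n u v
    rw [hq2]; exact geoComb_key hτ2 n u v
  clear hq1 hq2
  have hM2sq := N2_sq k e q1 q2
  have hM2n : ∀ x, 0 ≤ N2 k e q1 q2 x := apply_nonneg _
  have hkP : ∀ x, k (PL k e x) = 0 := k_PL he
  have hM2y : ∀ y, k y = 0 → N2 k e q1 q2 y ≤ p y / 2 := by
    intro y hy
    have h1 := hM2sq y
    rw [hy, PL_of_ker hy, norm_zero, mul_zero] at h1
    have h2 : q1 y ≤ 2 * θ * ‖y‖ := hq1le y
    have h3 : q2 y ≤ 2 * θ * ‖y‖ := hq2le y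
    have h4 : (θ : ℝ) * ‖y‖ ≤ p y / 6 := by
      rw [hθv]
      calc 1 / (6 * R1) * ‖y‖ ≤ 1 / (6 * R1) * (R1 * p y) := by gcongr; exact hp2 y
        _ = p y / 6 := by field_simp
    have h5 := apply_nonneg q1 y
    have h6 := apply_nonneg q2 y
    have h7 := apply_nonneg p y
    apply le_of_sq_le_sq _ (by positivity)
    have h8 : (q1 y) ^ 2 ≤ (p y / 3) ^ 2 := by
      have : q1 y ≤ p y / 3 := by linarith
      gcongr
    have h9 : (q2 y) ^ 2 ≤ (p y / 3) ^ 2 := by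
      have : q2 y ≤ p y / 3 := by linarith
      gcongr
    rw [h1]
    nlinarith [sq_nonneg (p y)]
  have hM2e : N2 k e q1 q2 e ≤ 2 := by
    have h1 := hM2sq e
    rw [he, PL_e he, norm_one, map_zero, map_zero] at h1
    apply le_of_sq_le_sq _ (by norm_num)
    rw [h1]
    norm_num
  refine ⟨N1 k e p, N2 k e q1 q2, N1_sq k e p, two_k_le_N2 k e q1 q2, ?_, ?_, ?_⟩
  · intro x
    conv_lhs => rw [PL_add_e (k := k) (e := e) x]
    calc N2 k e q1 q2 (PL k e x + k x • e) ≤ N2 k e q1 q2 (PL k e x) + N2 k e q1 q2 (k x • e) :=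
          map_add_le_add _ _ _
      _ ≤ p (PL k e x) / 2 + ‖k x‖ * 2 := by
        rw [map_smul_eq_mul]
        have := hM2y _ (hkP x)
        gcongr
      _ = _ := by ring
  · intro j
    refine ⟨((θ : ℝ) * (1 / 2) ^ j) ^ 2, by positivity, ?_⟩
    intro u v
    have h2 := N2_key1 k e q1 q2 u v
    have h3 := hq1key j (PL k e u) (PL k e v)
    have h4 := map_add_le_add (sF 𝕜 z j) (PL k e u) (PL k e v)
    have h5 := apply_nonneg (sF 𝕜 z j) (PL k e u + PL k e v)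
    refine le_trans ?_ (h3.trans h2)
    apply mul_le_mul_of_nonneg_left _ (by positivity)
    have h6 : (sF 𝕜 z j (PL k e u + PL k e v)) ^ 2 ≤
        (sF 𝕜 z j (PL k e u) + sF 𝕜 z j (PL k e v)) ^ 2 := by gcongr
    nlinarith
  · intro j
    refine ⟨((θ : ℝ) * (1 / 2) ^ j) ^ 2, by positivity, ?_⟩
    intro u v
    have h2 := N2_key2 k e q1 q2 u v
    have h3 := hq2key j (PL k e u) (PL k e v)
    refine le_trans (le_of_eq ?_) (h3.trans h2)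
    congr 1
    have h5 := parallelogram_law_with_norm 𝕜 (zs j (PL k e u)) (zs j (PL k e v))
    rw [map_add (zs j), norm_sub_rev]
    linarith

end Pool.Agent.Helper72_NA
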