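import Pool.Agent.Helper72_NA.Abs

open Set Filter Topology
open scoped NNReal

namespace Pool.Agent.Helper72_NA

variable {𝕜 : Type*} [RCLike 𝕜] {X : Type*} [NormedAddCommGroup X] [NormedSpace 𝕜 X]
  [NormedSpace ℝ X] [IsScalarTower ℝ 𝕜 X]

/-- If the slices of the unit ball of `p` on `ker k` are large, then the slices of a fibre of the
new ball are large. -/
theorem fibre_slices {k : X →L[𝕜] 𝕜} {p : Seminorm 𝕜 X} {ε1 : ℝ}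
    (hND : ND {y | k y = 0 ∧ p y ≤ 1} ε1) {r0 : ℝ} (hr0 : 0 < r0) (hr1 : r0 ≤ 1) {y0 w0 : X}
    (hky0 : k y0 = 0) (hpy0 : p y0 ≤ r0) (ψ : X →L[ℝ] ℝ) {s0 : ℝ} (hs0 : ψ (y0 + w0) = s0) :
    ∀ n : ℕ, ∃ y y' : X, k y = 0 ∧ p y ≤ 1 ∧ k y' = 0 ∧ p y' ≤ 1 ∧ ε1 ≤ ‖y - y'‖ ∧
      s0 - 1 / ((n : ℝ) + 1) ≤ ψ (((r0 : ℝ) : 𝕜) • y + w0) ∧
      s0 - 1 / ((n : ℝ) + 1) ≤ ψ (((r0 : ℝ) : 𝕜) • y' + w0) := by
  intro n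
  obtain ⟨y, hy, y', hy', hyy', hmy, hmy'⟩ := hND ψ (1 / ((n : ℝ) + 1)) Nat.one_div_pos_of_nat
  have hw : (r0⁻¹ • y0) ∈ {y | k y = 0 ∧ p y ≤ 1} := by
    have h1 : r0⁻¹ • y0 = ((r0⁻¹ : ℝ) : 𝕜) • y0 := (algebraMap_smul 𝕜 r0⁻¹ y0).symm
    constructor
    · rw [h1, map_smul, hky0, smul_zero]
    · rw [h1, map_smul_eq_mul, RCLike.norm_ofReal, abs_of_pos (inv_pos.2 hr0)]
      rw [inv_mul_le_iff₀ hr0, mul_one]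
      exact hpy0
  have hconv : ∀ v, (∀ w ∈ {y | k y = 0 ∧ p y ≤ 1}, ψ w < ψ v + 1 / ((n : ℝ) + 1)) →
      s0 - 1 / ((n : ℝ) + 1) ≤ ψ (((r0 : ℝ) : 𝕜) • v + w0) := by
    intro v hv
    have h1 := hv _ hw
    rw [map_smul, smul_eq_mul] at h1
    have h2 : ψ (((r0 : ℝ) : 𝕜) • v + w0) = r0 * ψ v + ψ w0 := by
      have h3 : ((r0 : ℝ) : 𝕜) • v = r0 • v := algebraMap_smul 𝕜 r0 v
      rw [map_add, h3, map_smul, smul_eq_mul]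
    have h4 : s0 = ψ y0 + ψ w0 := by rw [← hs0, ← map_add]
    have h5 : ψ y0 ≤ r0 * ψ v + r0 * (1 / ((n : ℝ) + 1)) := by
      have h6 : r0 * (r0⁻¹ * ψ y0) < r0 * (ψ v + 1 / ((n : ℝ) + 1)) := by gcongr
      rw [← mul_assoc, mul_inv_cancel₀ hr0.ne', one_mul] at h6
      linarith
    have h7 : r0 * (1 / ((n : ℝ) + 1)) ≤ 1 / ((n : ℝ) + 1) := by
      have : (0 : ℝ) < 1 / ((n : ℝ) + 1) := Nat.one_div_pos_of_nat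
      nlinarith
    rw [h2, h4]
    linarith
  exact ⟨y, y', hy.1, hy.2, hy'.1, hy'.2, hyy', hconv y hmy, hconv y' hmy'⟩

omit [NormedSpace ℝ X] [IsScalarTower ℝ 𝕜 X] in
/-- energy estimate -/
theorem energy {M2 : Seminorm 𝕜 X} {s0 : ℝ} (hs0 : 1 ≤ s0) {u : X} (hM2u : M2 u = s0)
    {v : ℕ → X} (h1 : ∀ n, M2 (v n) ≤ s0)
    (h2 : ∀ n : ℕ, 2 * s0 - 1 / ((n : ℝ) + 1) ≤ M2 (u + v n)) (n : ℕ) :
    2 * (M2 u) ^ 2 + 2 * (M2 (v n)) ^ 2 - (M2 (u + v n)) ^ 2 ≤ 4 * s0 * (1 / ((n : ℝ) + 1)) := by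
  have h6 : 1 / ((n : ℝ) + 1) ≤ 1 := by
    rw [div_le_one (by positivity)]
    have : (0 : ℝ) ≤ n := Nat.cast_nonneg n
    linarith
  have h5 : 0 ≤ 2 * s0 - 1 / ((n : ℝ) + 1) := by linarith
  have h7 := apply_nonneg M2 (v n)
  have h3 := h1 n
  have h8 : (M2 (v n)) ^ 2 ≤ s0 ^ 2 := by gcongr
  have h10 := h2 n
  have h9 : (2 * s0 - 1 / ((n : ℝ) + 1)) ^ 2 ≤ (M2 (u + v n)) ^ 2 := by gcongr
  rw [hM2u]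
  nlinarith [sq_nonneg (1 / ((n : ℝ) + 1))]

theorem sq_tendsto {b : ℕ → ℝ} {c s0 : ℝ} (hc : 0 < c) (hb : ∀ n, 0 ≤ b n)
    (h : ∀ n : ℕ, c * (b n) ^ 2 ≤ 4 * s0 * (1 / ((n : ℝ) + 1))) : Tendsto b atTop (𝓝 0) := by
  have h1 : Tendsto (fun n : ℕ => 1 / ((n : ℝ) + 1)) atTop (𝓝 0) :=
    tendsto_one_div_add_atTop_nhds_zero_nat
  have h2 : Tendsto (fun n : ℕ => 4 * s0 * (1 / ((n : ℝ) + 1)) / c) atTop (𝓝 0) := by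
    simpa using (h1.const_mul (4 * s0)).div_const c
  have hsq : Tendsto (fun n => (b n) ^ 2) atTop (𝓝 0) := by
    apply squeeze_zero (fun n => sq_nonneg _) (fun n => ?_) h2
    rw [le_div_iff₀ hc, mul_comm]
    exact h n
  have h8 := hsq.sqrt
  simpa [Real.sqrt_sq, hb] using h8

omit [NormedSpace ℝ X] [IsScalarTower ℝ 𝕜 X] in
theorem conv_sF {k : X →L[𝕜] 𝕜} {e : X} {z : ℕ → X} {M2 : Seminorm 𝕜 X} {j : ℕ} {c : ℝ}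
    (hc : 0 < c) (hkey : ∀ u v, c * (sF 𝕜 z j (PL k e v) - sF 𝕜 z j (PL k e u)) ^ 2 ≤
        2 * (M2 u) ^ 2 + 2 * (M2 v) ^ 2 - (M2 (u + v)) ^ 2) {s0 : ℝ} {u : X} {v : ℕ → X}
    (hen : ∀ n : ℕ, 2 * (M2 u) ^ 2 + 2 * (M2 (v n)) ^ 2 - (M2 (u + v n)) ^ 2 ≤
      4 * s0 * (1 / ((n : ℝ) + 1))) :
    Tendsto (fun n => sF 𝕜 z j (PL k e (v n))) atTop (𝓝 (sF 𝕜 z j (PL k e u))) := by
  rw [tendsto_iff_dist_tendsto_zero]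
  apply sq_tendsto hc (fun n => dist_nonneg) (fun n => ?_) (s0 := s0)
  rw [Real.dist_eq, sq_abs]
  exact (hkey u (v n)).trans (hen n)

omit [NormedSpace ℝ X] [IsScalarTower ℝ 𝕜 X] in
theorem conv_zs {k : X →L[𝕜] 𝕜} {e : X} {zs : ℕ → X →L[𝕜] 𝕜} {M2 : Seminorm 𝕜 X} {j : ℕ} {c : ℝ}
    (hc : 0 < c) (hkey : ∀ u v, c * ‖zs j (PL k e v) - zs j (PL k e u)‖ ^ 2 ≤
        2 * (M2 u) ^ 2 + 2 * (M2 v) ^ 2 - (M2 (u + v)) ^ 2) {s0 : ℝ} {u : X} {v : ℕ → X}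
    (hen : ∀ n : ℕ, 2 * (M2 u) ^ 2 + 2 * (M2 (v n)) ^ 2 - (M2 (u + v n)) ^ 2 ≤
      4 * s0 * (1 / ((n : ℝ) + 1))) :
    Tendsto (fun n => zs j (PL k e (v n))) atTop (𝓝 (zs j (PL k e u))) := by
  rw [tendsto_iff_norm_sub_tendsto_zero]
  apply sq_tendsto hc (fun n => norm_nonneg _) (fun n => ?_) (s0 := s0)
  exact (hkey u (v n)).trans (hen n)

end Pool.Agent.Helper72_NA
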