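import Pool.Agent.Helper72_NA.Abs2

open Set Filter Topology
open scoped NNReal

namespace Pool.Agent.Helper72_NA

variable {𝕜 : Type*} [RCLike 𝕜] {X : Type*} [NormedAddCommGroup X] [NormedSpace 𝕜 X]
  [NormedSpace ℝ X] [IsScalarTower ℝ 𝕜 X]

theorem main_abstract {k : X →L[𝕜] 𝕜} {e : X} (he : k e = 1) {p : Seminorm 𝕜 X} {r R1 ε1 : ℝ}
    (hr : 0 < r) (hR1 : 0 < R1) (hε1 : 0 < ε1) (hrε : r ≤ ε1 / 64)
    (hp1 : ∀ x, p x ≤ ‖x‖ / r) (hp2 : ∀ x, ‖x‖ ≤ R1 * p x)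
    (hND : ND {y | k y = 0 ∧ p y ≤ 1} ε1)
    {z : ℕ → X} {zs : ℕ → X →L[𝕜] 𝕜} (hz1 : ∀ j, ‖zs j‖ ≤ 1)
    (hz2 : ∀ j, zs j (z j) = (‖z j‖ : 𝕜))
    (hF : ∀ n, (Fsp 𝕜 z n : Set X) ⊆ closure (range z))
    (hdist : ∀ y, k y = 0 → p y ≤ 1 → ∀ η : ℝ, 0 < η → ∃ j, ‖y - z j‖ < r + η)
    {y1 : X} (hky1 : k y1 = 0) (hpy1 : p y1 = 1) :
    ∃ N : Seminorm 𝕜 X, (∃ c : ℝ, 0 < c ∧ ∀ x, ‖x‖ ≤ c * N x) ∧
      (∃ C : ℝ, 0 < C ∧ ∀ x, N x ≤ C * ‖x‖) ∧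
      ∃ T : X →L[𝕜] X, ∃ δ : ℝ, 0 < δ ∧ ∀ S : X →L[𝕜] X, (∀ x, N (S x - T x) ≤ δ * N x) →
        ¬ ∃ x0, N x0 ≤ 1 ∧ ∀ x, N x ≤ 1 → N (S x) ≤ N (S x0) := by
  obtain ⟨M1, M2, hM1sq, hM2k, hM2bound, hkeyF, hkeyz⟩ :=
    exists_norms (z := z) (zs := zs) he hR1 hp2 hz1
  have hM1n : ∀ x, 0 ≤ M1 x := apply_nonneg M1
  have hM2n : ∀ x, 0 ≤ M2 x := apply_nonneg M2
  have hkP : ∀ x, k (PL k e x) = 0 := k_PL he
  have hPP : ∀ x, PL k e (PL k e x) = PL k e x := fun x => PL_of_ker (hkP x)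
  have hPn : ∀ x, 0 ≤ p (PL k e x) := fun x => apply_nonneg p _
  have hM1p : ∀ x, p (PL k e x) ≤ M1 x := by
    intro x
    apply le_of_sq_le_sq _ (hM1n x)
    rw [hM1sq]
    linarith [sq_nonneg ‖k x‖]
  have hM1k : ∀ x, ‖k x‖ ≤ M1 x := by
    intro x
    apply le_of_sq_le_sq _ (hM1n x)
    rw [hM1sq]
    linarith [sq_nonneg (p (PL k e x))]
  have hM1ub : ∀ x, M1 x ≤ p (PL k e x) + ‖k x‖ := by
    intro x
    have h7 := hPn x
    apply le_of_sq_le_sq _ (add_nonneg h7 (norm_nonneg _))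
    rw [hM1sq]
    have := mul_nonneg h7 (norm_nonneg (k x))
    nlinarith
  obtain ⟨N, hNapp⟩ : ∃ N : Seminorm 𝕜 X, ∀ x, N x = max (M1 x) (M2 x) := ⟨M1 ⊔ M2, fun x => rfl⟩
  have hNM1 : ∀ x, M1 x ≤ N x := fun x => by rw [hNapp]; exact le_max_left _ _
  have hNM2 : ∀ x, M2 x ≤ N x := fun x => by rw [hNapp]; exact le_max_right _ _
  have hNn : ∀ x, 0 ≤ N x := apply_nonneg N
  -- comparison with the norm
  obtain ⟨cN, hcN⟩ : ∃ cN : ℝ, cN = R1 + ‖e‖ := ⟨_, rfl⟩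
  have hcNpos : 0 < cN := by rw [hcN]; positivity
  have hlow : ∀ x, ‖x‖ ≤ cN * N x := by
    intro x
    calc ‖x‖ = ‖PL k e x + k x • e‖ := by rw [← PL_add_e]
      _ ≤ ‖PL k e x‖ + ‖k x • e‖ := norm_add_le _ _
      _ ≤ R1 * p (PL k e x) + ‖k x‖ * ‖e‖ := by
        rw [norm_smul]
        have := hp2 (PL k e x)
        gcongr
      _ ≤ R1 * M1 x + M1 x * ‖e‖ := by
        have h1 := hM1p x
        have h2 := hM1k x
        gcongr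
      _ = cN * M1 x := by rw [hcN]; ring
      _ ≤ cN * N x := by gcongr; exact hNM1 x
  obtain ⟨CN, hCN⟩ : ∃ CN : ℝ, CN = ‖PL k e‖ / r + 2 * ‖k‖ + 1 := ⟨_, rfl⟩
  have hCNpos : 0 < CN := by rw [hCN]; positivity
  have hup : ∀ x, N x ≤ CN * ‖x‖ := by
    intro x
    have h1 : p (PL k e x) ≤ ‖PL k e‖ / r * ‖x‖ := by
      calc p (PL k e x) ≤ ‖PL k e x‖ / r := hp1 _
        _ ≤ ‖PL k e‖ * ‖x‖ / r := by gcongr; exact (PL k e).le_opNorm x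
        _ = _ := by ring
    have h2 : ‖k x‖ ≤ ‖k‖ * ‖x‖ := k.le_opNorm x
    have h3 : CN * ‖x‖ = ‖PL k e‖ / r * ‖x‖ + 2 * (‖k‖ * ‖x‖) + ‖x‖ := by rw [hCN]; ring
    have h4 := norm_nonneg x
    have h5 := norm_nonneg (k x)
    have h6 := hPn x
    rw [hNapp, h3]
    apply max_le
    · have := hM1ub x
      linarith
    · have := hM2bound x
      linarith
  -- the functional g and the operator T
  obtain ⟨g, hg1, hg2⟩ := exists_support hpy1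
  obtain ⟨a, ha⟩ : ∃ a : ℝ, a = 1 / 32 := ⟨_, rfl⟩
  obtain ⟨T, hT⟩ : ∃ T : X →L[𝕜] X, ∀ x, T x = (a : 𝕜) • PL k e x + g (PL k e x) • e := by
    let g' : X →L[𝕜] 𝕜 := g.mkContinuous (1 / r) (fun x => by
      refine (hg2 x).trans ((hp1 x).trans ?_)
      rw [div_eq_mul_inv, one_div, mul_comm])
    exact ⟨((a : 𝕜)) • PL k e + (g'.comp (PL k e)).smulRight e, fun x => rfl⟩
  have hkT : ∀ x, k (T x) = g (PL k e x) := by
    intro x
    rw [hT, map_add, map_smul, map_smul, hkP, he]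
    simp
  have hPT : ∀ x, PL k e (T x) = (a : 𝕜) • PL k e x := by
    intro x
    rw [hT, map_add, map_smul, map_smul, hPP, PL_e he]
    simp
  obtain ⟨K1, hK1⟩ : ∃ K1 : ℝ, K1 = (‖PL k e‖ + 1) * cN := ⟨_, rfl⟩
  have hK1pos : 0 < K1 := by rw [hK1]; positivity
  have hapos : 0 < a := by rw [ha]; norm_num
  obtain ⟨δ, hδpos, hδ1, hδ2⟩ : ∃ δ : ℝ, 0 < δ ∧ δ ≤ 1 / 64 ∧ K1 * δ ≤ a * ε1 / 100 := by
    refine ⟨min (1 / 64) (a * ε1 / (100 * K1)), lt_min (by norm_num) (by positivity),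
      min_le_left _ _, ?_⟩
    calc K1 * min (1 / 64) (a * ε1 / (100 * K1)) ≤ K1 * (a * ε1 / (100 * K1)) := by
          gcongr; exact min_le_right _ _
      _ = a * ε1 / 100 := by field_simp
  have hna : ‖((a : ℝ) : 𝕜)‖ = a := by rw [RCLike.norm_ofReal, abs_of_pos hapos]
  refine ⟨N, ⟨cN, hcNpos, hlow⟩, ⟨CN, hCNpos, hup⟩, T, δ, hδpos, ?_⟩
  rintro S hS ⟨x0, hx0, hmax⟩
  have hPS : ∀ x, ‖PL k e (S x - T x)‖ ≤ K1 * δ * N x := by
    intro x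
    calc ‖PL k e (S x - T x)‖ ≤ ‖PL k e‖ * ‖S x - T x‖ := (PL k e).le_opNorm _
      _ ≤ (‖PL k e‖ + 1) * ‖S x - T x‖ := by gcongr; linarith
      _ ≤ (‖PL k e‖ + 1) * (cN * (δ * N x)) := by
        gcongr
        exact (hlow _).trans (by gcongr; exact hS x)
      _ = K1 * δ * N x := by rw [hK1]; ring
  obtain ⟨u, hu⟩ : ∃ u : X, u = S x0 := ⟨_, rfl⟩
  obtain ⟨s0, hs0⟩ : ∃ s0 : ℝ, s0 = N u := ⟨_, rfl⟩
  rw [← hu, ← hs0] at hmax
  -- (s1)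
  have hNy1 : N y1 ≤ 1 := by
    rw [hNapp]
    apply max_le
    · have := hM1ub y1
      rw [hky1, PL_of_ker hky1, hpy1] at this
      simpa using this
    · have := hM2bound y1
      rw [hky1, PL_of_ker hky1, hpy1, norm_zero] at this
      linarith
  have hs0lb : 2 - δ ≤ s0 := by
    have h1 : N (S y1) ≤ s0 := hmax y1 hNy1
    have h2 : 2 ≤ N (T y1) := by
      have h3 := hM2k (T y1)
      rw [hkT, PL_of_ker hky1, hg1, norm_one] at h3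
      have := hNM2 (T y1)
      linarith
    have h4 : N (T y1) ≤ N (S y1) + N (S y1 - T y1) := by
      calc N (T y1) = N (S y1 - (S y1 - T y1)) := by congr 1; abel
        _ ≤ _ := map_sub_le_add N _ _
    have h5 : N (S y1 - T y1) ≤ δ * 1 := (hS y1).trans (by gcongr)
    linarith
  have hSx0 : N (u - T x0) ≤ δ := by
    rw [hu]
    exact (hS x0).trans (by
      calc δ * N x0 ≤ δ * 1 := by gcongr
        _ = δ := mul_one δ)
  obtain ⟨y0, hy0⟩ : ∃ y0 : X, y0 = PL k e x0 := ⟨_, rfl⟩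
  obtain ⟨t0, ht0⟩ : ∃ t0 : 𝕜, t0 = k x0 := ⟨_, rfl⟩
  have hky0 : k y0 = 0 := by rw [hy0]; exact hkP x0
  have hpy0n : 0 ≤ p y0 := apply_nonneg p y0
  have hM1x0 : ‖t0‖ ^ 2 + (p y0) ^ 2 ≤ 1 := by
    have h1 := hM1sq x0
    have h2 := (hNM1 x0).trans hx0
    have h3 := hM1n x0
    rw [ht0, hy0, ← h1]
    nlinarith
  have hpy0 : p y0 ≤ 1 := by nlinarith [sq_nonneg ‖t0‖]
  have hgy0 : ‖g y0‖ ≤ p y0 := hg2 y0
  have hM1T : M1 (T x0) ≤ 1 + a := by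
    have h1 := hM1ub (T x0)
    rw [hPT, hkT, map_smul_eq_mul, hna, ← hy0] at h1
    have h2 : a * p y0 ≤ a * 1 := by gcongr
    linarith
  have hM1u : M1 u < s0 := by
    have h1 : M1 u ≤ M1 (T x0) + M1 (u - T x0) := by
      calc M1 u = M1 (T x0 + (u - T x0)) := by congr 1; abel
        _ ≤ _ := map_add_le_add M1 _ _
    have h2 := (hNM1 (u - T x0)).trans hSx0
    rw [ha] at hM1T
    linarith
  -- (s3)
  have hM2u : M2 u = s0 := by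
    have h1 : s0 = max (M1 u) (M2 u) := by rw [hs0]; exact hNapp u
    rcases max_choice (M1 u) (M2 u) with h2 | h2
    · rw [h2] at h1; linarith
    · rw [h2] at h1; exact h1.symm
  -- (s4)
  have hpy0lb : 1 - 3 / 128 ≤ p y0 := by
    have h1 : M2 u ≤ M2 (T x0) + M2 (u - T x0) := by
      calc M2 u = M2 (T x0 + (u - T x0)) := by congr 1; abel
        _ ≤ _ := map_add_le_add M2 _ _
    have h2 := (hNM2 (u - T x0)).trans hSx0
    have h3 := hM2bound (T x0)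
    rw [hPT, hkT, map_smul_eq_mul, hna, ← hy0, ha] at h3
    linarith
  have ht0sq : ‖t0‖ ^ 2 ≤ 1 / 16 := by nlinarith
  have ht0b : ‖t0‖ ≤ 1 / 4 := by
    apply le_of_sq_le_sq _ (by norm_num)
    linarith
  -- (s5)
  obtain ⟨r0, hr0n, hr0sq⟩ : ∃ r0 : ℝ, 0 ≤ r0 ∧ r0 ^ 2 = 1 - ‖t0‖ ^ 2 :=
    ⟨Real.sqrt (1 - ‖t0‖ ^ 2), Real.sqrt_nonneg _, Real.sq_sqrt (by linarith)⟩
  have hr0lb : 1 / 2 ≤ r0 := by
    apply le_of_sq_le_sq _ hr0n
    linarith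
  have hr0ub : r0 ≤ 1 := by
    apply le_of_sq_le_sq _ (by norm_num)
    linarith [sq_nonneg ‖t0‖]
  have hpy0r0 : p y0 ≤ r0 := by
    apply le_of_sq_le_sq _ hr0n
    linarith
  have hr0pos : 0 < r0 := by linarith
  have hnr0 : ‖((r0 : ℝ) : 𝕜)‖ = r0 := by rw [RCLike.norm_ofReal, abs_of_pos hr0pos]
  have hx0dec : x0 = y0 + t0 • e := by rw [hy0, ht0]; exact PL_add_e x0
  have hfib : ∀ y, k y = 0 → p y ≤ 1 → N (((r0 : ℝ) : 𝕜) • y + t0 • e) ≤ 1 := by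
    intro y hky hpy
    have h1 : k (((r0 : ℝ) : 𝕜) • y + t0 • e) = t0 := by
      rw [map_add, map_smul, map_smul, hky, he]; simp
    have h2 : PL k e (((r0 : ℝ) : 𝕜) • y + t0 • e) = ((r0 : ℝ) : 𝕜) • y := by
      rw [map_add, map_smul, map_smul, PL_of_ker hky, PL_e he]; simp
    have h3 : p (((r0 : ℝ) : 𝕜) • y) ≤ r0 := by
      rw [map_smul_eq_mul, hnr0]
      nlinarith [apply_nonneg p y]
    have h3n := apply_nonneg p (((r0 : ℝ) : 𝕜) • y)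
    rw [hNapp]
    apply max_le
    · apply le_of_sq_le_sq _ (by norm_num)
      rw [hM1sq, h1, h2]
      have h5 : (p (((r0 : ℝ) : 𝕜) • y)) ^ 2 ≤ r0 ^ 2 := by gcongr
      linarith
    · have h4 := hM2bound (((r0 : ℝ) : 𝕜) • y + t0 • e)
      rw [h1, h2] at h4
      linarith
  -- (s6)
  obtain ⟨ψ0, hψ1, hψ2⟩ := exists_support_real M2 u
  have hψabs : ∀ x, ‖ψ0 x‖ ≤ CN * ‖x‖ := by
    intro x
    rw [Real.norm_eq_abs, abs_le]
    constructor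
    · have h1 := hψ2 (-x)
      rw [map_neg, map_neg_eq_map] at h1
      have h2 := (hNM2 x).trans (hup x)
      linarith
    · exact (hψ2 x).trans ((hNM2 x).trans (hup x))
  obtain ⟨ψ, hψ⟩ : ∃ ψ : X →L[ℝ] ℝ, ∀ x, ψ x = ψ0 (S x) :=
    ⟨(ψ0.mkContinuous CN hψabs).comp (S.restrictScalars ℝ), fun x => rfl⟩
  have hψx0 : ψ (y0 + t0 • e) = s0 := by rw [← hx0dec, hψ, ← hu, hψ1, hM2u]
  -- (s7)
  have hseq := fibre_slices hND hr0pos hr0ub hky0 hpy0r0 ψ hψx0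
  choose y y' hky hpy hky' hpy' hyy' hψy hψy' using hseq
  obtain ⟨x, hx⟩ : ∃ x : ℕ → X, ∀ n, x n = ((r0 : ℝ) : 𝕜) • y n + t0 • e := ⟨_, fun n => rfl⟩
  obtain ⟨x', hx'⟩ : ∃ x' : ℕ → X, ∀ n, x' n = ((r0 : ℝ) : 𝕜) • y' n + t0 • e :=
    ⟨_, fun n => rfl⟩
  have hNx : ∀ n, N (x n) ≤ 1 := fun n => by rw [hx]; exact hfib _ (hky n) (hpy n)
  have hNx' : ∀ n, N (x' n) ≤ 1 := fun n => by rw [hx']; exact hfib _ (hky' n) (hpy' n)
  -- (s8) energy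
  have hs01 : 1 ≤ s0 := by linarith
  have henergy : ∀ v : ℕ → X, (∀ n, N (v n) ≤ 1) →
      (∀ n : ℕ, s0 - 1 / ((n : ℝ) + 1) ≤ ψ (v n)) →
      ∀ n : ℕ, 2 * (M2 u) ^ 2 + 2 * (M2 (S (v n))) ^ 2 - (M2 (u + S (v n))) ^ 2
        ≤ 4 * s0 * (1 / ((n : ℝ) + 1)) := by
    intro v hv1 hv2
    apply energy (v := fun n => S (v n)) hs01 hM2u (fun n => (hNM2 _).trans (hmax _ (hv1 n)))
    intro n
    have h3 := hψ2 (u + S (v n))
    rw [map_add, hψ1, hM2u] at h3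
    have h4 := hv2 n
    rw [hψ] at h4
    linarith
  have hψx : ∀ n : ℕ, s0 - 1 / ((n : ℝ) + 1) ≤ ψ (x n) := fun n => by rw [hx]; exact hψy n
  have hψx' : ∀ n : ℕ, s0 - 1 / ((n : ℝ) + 1) ≤ ψ (x' n) := fun n => by rw [hx']; exact hψy' n
  have hen := henergy x hNx hψx
  have hen' := henergy x' hNx' hψx'
  -- (s10)
  obtain ⟨ρ, hρ⟩ : ∃ ρ : ℝ, ρ = a * r + K1 * δ := ⟨_, rfl⟩
  have hρpos : 0 < ρ := by rw [hρ]; positivity
  obtain ⟨j, hj⟩ := hdist y0 hky0 hpy0 (r / 2) (by positivity)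
  have hsFu : sF 𝕜 z (j + 1) (PL k e u) < 2 * ρ := by
    have hmem : (a : 𝕜) • z j ∈ Fsp 𝕜 z (j + 1) := by
      apply Submodule.smul_mem
      apply Submodule.subset_span
      exact ⟨j, by simp, rfl⟩
    have h1 := sF_le_of_mem z (j + 1) (PL k e u) hmem
    have h2 : PL k e u - (a : 𝕜) • z j = (a : 𝕜) • (y0 - z j) + PL k e (u - T x0) := by
      rw [map_sub, hPT, smul_sub, ← hy0]; abel
    rw [h2] at h1
    have h3 : ‖(a : 𝕜) • (y0 - z j) + PL k e (u - T x0)‖ ≤ a * ‖y0 - z j‖ + K1 * δ * 1 := by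
      refine (norm_add_le _ _).trans ?_
      rw [norm_smul, hna, hu]
      have h4 := hPS x0
      have h5 : K1 * δ * N x0 ≤ K1 * δ * 1 := by gcongr
      gcongr
      exact h4.trans h5
    have h6 : a * ‖y0 - z j‖ < a * (r + r / 2) := by gcongr
    have h7 : 0 < K1 * δ := by positivity
    have h8 : 0 < a * r := by positivity
    rw [hρ]
    linarith
  have hbd : ∀ v : ℕ → X, (∀ n, N (v n) ≤ 1) →
      ∀ n, ‖PL k e (S (v n))‖ ≤ ‖PL k e‖ * (cN * s0) := by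
    intro v hv n
    refine ((PL k e).le_opNorm _).trans ?_
    gcongr
    exact (hlow _).trans (by gcongr; exact hmax _ (hv n))
  obtain ⟨c1, hc1, hkF⟩ := hkeyF (j + 1)
  have hcz : ∀ i, ∀ v : ℕ → X, (∀ n : ℕ, 2 * (M2 u) ^ 2 + 2 * (M2 (S (v n))) ^ 2 -
      (M2 (u + S (v n))) ^ 2 ≤ 4 * s0 * (1 / ((n : ℝ) + 1))) →
      Tendsto (fun n => zs i (PL k e (S (v n)))) atTop (𝓝 (zs i (PL k e u))) := by
    intro i v hv
    obtain ⟨c2, hc2, hkz⟩ := hkeyz i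
    exact conv_zs (v := fun n => S (v n)) hc2 hkz hv
  obtain ⟨n, hn⟩ := almost_rot hz1 hz2 hρpos (a := PL k e u)
    (b := fun n => PL k e (S (x n))) (b' := fun n => PL k e (S (x' n)))
    (hbd x hNx) (hbd x' hNx') (hF (j + 1)) hsFu
    (conv_sF (v := fun n => S (x n)) hc1 hkF hen) (conv_sF (v := fun n => S (x' n)) hc1 hkF hen')
    (fun i => hcz i x hen) (fun i => hcz i x' hen')
  -- (s11)
  have hdiff : x n - x' n = ((r0 : ℝ) : 𝕜) • (y n - y' n) := by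
    rw [hx, hx', smul_sub]; abel
  have hkdiff : k (y n - y' n) = 0 := by rw [map_sub, hky, hky', sub_zero]
  have h1 : (a : 𝕜) • (((r0 : ℝ) : 𝕜) • (y n - y' n)) =
      (PL k e (S (x n)) - PL k e (S (x' n))) - PL k e (S (x n - x' n) - T (x n - x' n)) := by
    rw [map_sub (PL k e) (S (x n - x' n)), hPT, map_sub S, map_sub (PL k e) (S (x n)), hdiff,
      map_smul (PL k e), PL_of_ker hkdiff]
    abel
  have h2 : ‖(a : 𝕜) • (((r0 : ℝ) : 𝕜) • (y n - y' n))‖ = a * (r0 * ‖y n - y' n‖) := by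
    rw [norm_smul, norm_smul, hna, hnr0]
  have h3 : ‖PL k e (S (x n - x' n) - T (x n - x' n))‖ ≤ K1 * δ * 2 := by
    refine (hPS _).trans ?_
    gcongr
    calc N (x n - x' n) ≤ N (x n) + N (x' n) := map_sub_le_add N _ _
      _ ≤ 2 := by
        have := hNx n
        have := hNx' n
        linarith
  have h4 : a * (r0 * ‖y n - y' n‖) ≤ ‖PL k e (S (x n)) - PL k e (S (x' n))‖ + K1 * δ * 2 := by
    rw [← h2, h1]
    exact (norm_sub_le _ _).trans (by gcongr)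
  have h6 : a * (1 / 2 * ε1) ≤ a * (r0 * ‖y n - y' n‖) := by
    have := hyy' n
    gcongr
  have h7 : ‖PL k e (S (x n)) - PL k e (S (x' n))‖ < 9 * ρ := hn
  have h8 : a * r ≤ a * (ε1 / 64) := by gcongr
  have h9 : 0 < a * ε1 := by positivity
  rw [hρ] at h7
  linarith

end Pool.Agent.Helper72_NA
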