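import Pool.Agent.Helper72_NA.Abs3

open Set Filter Topology
open scoped NNReal

namespace Pool.Agent.Helper72_NA

universe u

section core

variable {𝕜 : Type*} [RCLike 𝕜] {X : Type*} [NormedAddCommGroup X] [NormedSpace 𝕜 X]
  [NormedSpace ℝ X] [IsScalarTower ℝ 𝕜 X]

theorem core {C : Set X} (hne : C.Nonempty) (hb : Bornology.IsBounded C) {ε : ℝ} (hε : 0 < ε)
    (hd : ∀ x ∈ C, x ∈ closure (convexHull ℝ (C \ Metric.ball x ε))) :
    ∃ N : Seminorm 𝕜 X, (∃ c : ℝ, 0 < c ∧ ∀ x, ‖x‖ ≤ c * N x) ∧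
      (∃ C : ℝ, 0 < C ∧ ∀ x, N x ≤ C * ‖x‖) ∧
      ∃ T : X →L[𝕜] X, ∃ δ : ℝ, 0 < δ ∧ ∀ S : X →L[𝕜] X, (∀ x, N (S x - T x) ≤ δ * N x) →
        ¬ ∃ x0, N x0 ≤ 1 ∧ ∀ x, N x ≤ 1 → N (S x) ≤ N (S x0) := by
  obtain ⟨A, hAC, hAc, hAne, hAnd⟩ := exists_countable_nd hne hb hd
  have hAb := hb.subset hAC
  -- a nonzero vector
  obtain ⟨e, he0⟩ : ∃ e : X, e ≠ 0 := by
    obtain ⟨x, -, y, -, hxy, -⟩ := hAnd 0 1 one_pos
    refine ⟨x - y, fun h => ?_⟩
    rw [h, norm_zero] at hxy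
    linarith
  obtain ⟨k, hk⟩ : ∃ k : X →L[𝕜] 𝕜, k e = 1 := SeparatingDual.exists_eq_one he0
  obtain ⟨B, hB⟩ : ∃ B : Set X, B = (fun x => x - k x • e) '' A := ⟨_, rfl⟩
  have hBnd : ND B (ε / 2) := by rw [hB]; exact nd_proj hε hAne hAb hAnd k e
  have hBne : B.Nonempty := by rw [hB]; exact hAne.image _
  have hBc : B.Countable := by rw [hB]; exact hAc.image _
  have hkB : ∀ x ∈ B, k x = 0 := by
    rw [hB]
    rintro _ ⟨x, -, rfl⟩
    exact k_PL hk x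
  obtain ⟨R, hR⟩ : ∃ R, ∀ x ∈ B, ‖x‖ ≤ R := by
    obtain ⟨R, hR⟩ := hAb.exists_norm_le
    refine ⟨‖PL k e‖ * R, ?_⟩
    rw [hB]
    rintro _ ⟨x, hx, rfl⟩
    exact ((PL k e).le_opNorm x).trans (by gcongr; exact hR x hx)
  have hBb : Bornology.IsBounded B := isBounded_iff_forall_norm_le.2 ⟨R, hR⟩
  have hR0 : 0 ≤ R := by
    obtain ⟨x, hx⟩ := hBne
    exact (norm_nonneg x).trans (hR x hx)
  obtain ⟨r, hr⟩ : ∃ r : ℝ, r = ε / 2 / 64 := ⟨_, rfl⟩
  have hrpos : 0 < r := by rw [hr]; positivity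
  obtain ⟨z, hz1, hz2⟩ := exists_seq_span (𝕜 := 𝕜) hBc
  obtain ⟨zs, hzs1, hzs2⟩ := exists_norming (𝕜 := 𝕜) z
  have hp1 := pG_le (𝕜 := 𝕜) hBne hrpos
  have hp2 := norm_le_pG (𝕜 := 𝕜) hBne hrpos hR
  -- the point y1
  obtain ⟨y1, hky1, hpy1⟩ : ∃ y1 : X, k y1 = 0 ∧ pG (𝕜 := 𝕜) hBne hrpos y1 = 1 := by
    obtain ⟨x, hx, y, hy, hxy, -⟩ := hBnd 0 1 one_pos
    have hpos : 0 < pG (𝕜 := 𝕜) hBne hrpos (x - y) := by
      have h1 := hp2 (x - y)
      by_contra hcon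
      push Not at hcon
      have h2 := apply_nonneg (pG (𝕜 := 𝕜) hBne hrpos) (x - y)
      have h3 : pG (𝕜 := 𝕜) hBne hrpos (x - y) = 0 := le_antisymm hcon h2
      rw [h3, mul_zero] at h1
      linarith
    refine ⟨(((pG (𝕜 := 𝕜) hBne hrpos (x - y))⁻¹ : ℝ) : 𝕜) • (x - y), ?_, ?_⟩
    · rw [map_smul k, map_sub k, hkB x hx, hkB y hy, sub_zero, smul_zero]
    · rw [map_smul_eq_mul, RCLike.norm_ofReal, abs_of_pos (inv_pos.2 hpos),
        inv_mul_cancel₀ hpos.ne']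
  refine main_abstract (r := r) (R1 := R + r) (ε1 := ε / 2) hk hrpos (by positivity) (by positivity)
    (le_of_eq hr) hp1 hp2 (nd_pG hBne hBb hBnd hrpos hkB) hzs1 hzs2 ?_ ?_ hky1 hpy1
  · intro n
    refine Subset.trans ?_ hz2
    have : Fsp 𝕜 z n ≤ Submodule.span 𝕜 B := by
      apply Submodule.span_le.2
      rintro _ ⟨j, -, rfl⟩
      exact hz1 j
    exact this
  · intro y hy hpy η hη
    obtain ⟨c, hc, hyc⟩ := dist_pG hBne hrpos hpy (half_pos hη)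
    have hcspan : c ∈ (Submodule.span 𝕜 B : Set X) := by
      have hsub : convexHull ℝ (uni 𝕜 B) ⊆ (Submodule.span 𝕜 B : Set X) := by
        apply convexHull_min
        · rintro _ ⟨l, -, w, hw, rfl⟩
          exact (Submodule.span 𝕜 B).smul_mem l (Submodule.subset_span hw)
        · exact ((Submodule.span 𝕜 B).restrictScalars ℝ).convex
      exact hsub hc
    obtain ⟨_, ⟨j, rfl⟩, hj⟩ := Metric.mem_closure_iff.1 (hz2 hcspan) (η / 2) (half_pos hη)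
    rw [dist_eq_norm] at hj
    refine ⟨j, ?_⟩
    calc ‖y - z j‖ = ‖(y - c) + (c - z j)‖ := by congr 1; abel
      _ ≤ ‖y - c‖ + ‖c - z j‖ := norm_add_le _ _
      _ < r + η := by linarith

end core

section renorm

variable {𝕜 : Type*} [RCLike 𝕜] {X : Type u} [NormedAddCommGroup X] [NormedSpace 𝕜 X]

/-- type synonym carrying a new norm -/
def Renorm (N : Seminorm 𝕜 X) (_h : ∀ x, N x = 0 → x = 0) : Type u := X

variable (N : Seminorm 𝕜 X) (h : ∀ x, N x = 0 → x = 0)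

instance : AddCommGroup (Renorm N h) := inferInstanceAs (AddCommGroup X)

instance : Module 𝕜 (Renorm N h) := inferInstanceAs (Module 𝕜 X)

noncomputable instance : Norm (Renorm N h) := ⟨fun x => N (show X from x)⟩

theorem renorm_core : NormedSpace.Core 𝕜 (Renorm N h) where
  norm_nonneg x := apply_nonneg N (show X from x)
  norm_smul c x := map_smul_eq_mul N c (show X from x)
  norm_triangle x y := map_add_le_add N (show X from x) (show X from y)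
  norm_eq_zero_iff x := ⟨fun hx => h _ hx, fun hx => by
    rw [hx]
    exact map_zero N⟩

noncomputable instance : NormedAddCommGroup (Renorm N h) :=
  NormedAddCommGroup.ofCore (renorm_core N h)

noncomputable instance : NormedSpace 𝕜 (Renorm N h) := NormedSpace.ofCore (renorm_core N h)

/-- the identity as a linear equivalence -/
def toRenorm : X ≃ₗ[𝕜] Renorm N h := LinearEquiv.refl 𝕜 X

theorem norm_toRenorm (x : X) : ‖toRenorm N h x‖ = N x := rfl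

/-- A renorming produces a normed space isomorphic to `X` whose norm is `N`. -/
theorem exists_renorm (N : Seminorm 𝕜 X)
    (hlow : ∃ c : ℝ, 0 < c ∧ ∀ x, ‖x‖ ≤ c * N x)
    (hup : ∃ C : ℝ, 0 < C ∧ ∀ x, N x ≤ C * ‖x‖) :
    ∃ (Y : Type u) (_ : NormedAddCommGroup Y) (_ : NormedSpace 𝕜 Y)
      (ι : X ≃L[𝕜] Y), ∀ x, ‖ι x‖ = N x := by
  obtain ⟨c, hc, hlow⟩ := hlow
  obtain ⟨C, hC, hup⟩ := hup
  have h : ∀ x, N x = 0 → x = 0 := by
    intro x hx
    have := hlow x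
    rw [hx, mul_zero] at this
    exact norm_le_zero_iff.1 this
  refine ⟨Renorm N h, inferInstance, inferInstance,
    (toRenorm N h).toContinuousLinearEquivOfBounds C c (fun x => ?_) (fun x => ?_), fun x => ?_⟩
  · rw [norm_toRenorm]; exact hup x
  · have := hlow ((toRenorm N h).symm x)
    rwa [← norm_toRenorm N h, LinearEquiv.apply_symm_apply] at this
  · exact norm_toRenorm N h x

end renorm

/-- **Main theorem.** -/
theorem main {𝕜 : Type*} [RCLike 𝕜] {X : Type u} [NormedAddCommGroup X] [NormedSpace 𝕜 X]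
    [NormedSpace ℝ X] [IsScalarTower ℝ 𝕜 X] [CompleteSpace X] {C : Set X} (hne : C.Nonempty)
    (hb : Bornology.IsBounded C) {ε : ℝ} (hε : 0 < ε)
    (hd : ∀ x ∈ C, x ∈ closure (convexHull ℝ (C \ Metric.ball x ε))) :
    ∃ (Y : Type u) (_ : NormedAddCommGroup Y) (_ : NormedSpace 𝕜 Y), CompleteSpace Y ∧
      Nonempty (X ≃L[𝕜] Y) ∧
      ¬ Dense {T : Y →L[𝕜] Y | ∃ y : Y, ‖y‖ = 1 ∧ ‖T y‖ = ‖T‖} := by
  obtain ⟨N, hlow, hup, T, δ, hδ, hT⟩ := core (𝕜 := 𝕜) hne hb hε hd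
  obtain ⟨Y, i1, i2, ι, hι⟩ := exists_renorm N hlow hup
  refine ⟨Y, i1, i2, ?_, ⟨ι⟩, ?_⟩
  · exact (completeSpace_congr (e := ι.toEquiv) ι.isUniformEmbedding).1 inferInstance
  · intro hdense
    let TY : Y →L[𝕜] Y := (ι : X →L[𝕜] Y).comp (T.comp (ι.symm : Y →L[𝕜] X))
    have hTY : ∀ y, TY y = ι (T (ι.symm y)) := fun y => rfl
    obtain ⟨SY, ⟨y, hy1, hy2⟩, hdist⟩ := Metric.dense_iff.1 hdense TY δ hδ |>.imp
      (fun S h => And.intro h.2 h.1)
    rw [Metric.mem_ball, dist_eq_norm] at hdist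
    let S : X →L[𝕜] X := (ι.symm : Y →L[𝕜] X).comp (SY.comp (ι : X →L[𝕜] Y))
    have hS : ∀ x, ι (S x) = SY (ι x) := fun x => ι.apply_symm_apply _
    refine hT S ?_ ⟨ι.symm y, ?_, ?_⟩
    · intro x
      rw [← hι, map_sub, hS, ← hι]
      have h1 : SY (ι x) - ι (T x) = (SY - TY) (ι x) := by
        rw [sub_apply, hTY, ι.symm_apply_apply]
      rw [h1]
      exact ((SY - TY).le_opNorm _).trans (by gcongr)
    · rw [← hι, ι.apply_symm_apply, hy1]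
    · intro x hx
      rw [← hι, ← hι, hS, hS, ι.apply_symm_apply, hy2]
      rw [← hι] at hx
      calc ‖SY (ι x)‖ ≤ ‖SY‖ * ‖ι x‖ := SY.le_opNorm _
        _ ≤ ‖SY‖ * 1 := by gcongr
        _ = ‖SY‖ := mul_one _

end Pool.Agent.Helper72_NA
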