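import Pool.Agent.Helper72_NA.ND

open Set Filter Topology
open scoped Pointwise

namespace Pool.Agent.Helper72_NA

variable {𝕜 : Type*} [RCLike 𝕜] {X : Type*} [NormedAddCommGroup X] [NormedSpace 𝕜 X]
  [NormedSpace ℝ X] [IsScalarTower ℝ 𝕜 X]

/-- the open convex balanced set `conv (uni A) + ball 0 r` -/
def bodyD (𝕜 : Type*) [RCLike 𝕜] {X : Type*} [NormedAddCommGroup X] [NormedSpace 𝕜 X]
    [NormedSpace ℝ X] (A : Set X) (r : ℝ) : Set X :=
  convexHull ℝ (uni 𝕜 A) + Metric.ball (0 : X) r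

omit [IsScalarTower ℝ 𝕜 X] in
theorem bodyD_open (A : Set X) (r : ℝ) : IsOpen (bodyD 𝕜 A r) :=
  Metric.isOpen_ball.add_left

omit [IsScalarTower ℝ 𝕜 X] in
theorem bodyD_convex (A : Set X) (r : ℝ) : Convex ℝ (bodyD 𝕜 A r) :=
  (convex_convexHull ℝ _).add (convex_ball 0 r)

omit [NormedSpace ℝ X] [IsScalarTower ℝ 𝕜 X] in
theorem uni_smul_mem {A : Set X} {l : 𝕜} (hl : ‖l‖ = 1) {x : X} (hx : x ∈ uni 𝕜 A) :
    l • x ∈ uni 𝕜 A := by
  obtain ⟨m, hm, y, hy, rfl⟩ := hx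
  exact ⟨l * m, by rw [norm_mul, hl, hm, one_mul], y, hy, by rw [smul_smul]⟩

theorem convexHull_uni_smul_mem {A : Set X} {l : 𝕜} (hl : ‖l‖ = 1) {x : X}
    (hx : x ∈ convexHull ℝ (uni 𝕜 A)) : l • x ∈ convexHull ℝ (uni 𝕜 A) := by
  let M : X →ₗ[ℝ] X := ((l • LinearMap.id : X →ₗ[𝕜] X)).restrictScalars ℝ
  have hM : ∀ x, M x = l • x := fun x => rfl
  have h1 : M '' (convexHull ℝ (uni 𝕜 A)) ⊆ convexHull ℝ (uni 𝕜 A) := by
    rw [M.image_convexHull]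
    apply convexHull_mono
    rintro _ ⟨z, hz, rfl⟩
    rw [hM]
    exact uni_smul_mem hl hz
  have := h1 (mem_image_of_mem M hx)
  rwa [hM] at this

omit [IsScalarTower ℝ 𝕜 X] in
theorem zero_mem_convexHull_uni {A : Set X} (hne : A.Nonempty) :
    (0 : X) ∈ convexHull ℝ (uni 𝕜 A) := by
  obtain ⟨x, hx⟩ := hne
  have h1 : x ∈ convexHull ℝ (uni 𝕜 A) := subset_convexHull ℝ _ (subset_uni A hx)
  have h2 : -x ∈ convexHull ℝ (uni 𝕜 A) :=
    subset_convexHull ℝ _ ⟨-1, by simp, x, hx, by simp⟩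
  have := (convex_convexHull ℝ (uni 𝕜 A)) h1 h2 (by norm_num : (0 : ℝ) ≤ 1 / 2)
    (by norm_num : (0 : ℝ) ≤ 1 / 2) (by norm_num)
  simpa using this

theorem bodyD_balanced {A : Set X} (hne : A.Nonempty) (r : ℝ) : Balanced 𝕜 (bodyD 𝕜 A r) := by
  intro a ha
  rintro _ ⟨_, ⟨c, hc, b, hb, rfl⟩, rfl⟩
  -- write `a = ‖a‖ * l`
  obtain ⟨l, hl, hal⟩ : ∃ l : 𝕜, ‖l‖ = 1 ∧ a = ((‖a‖ : ℝ) : 𝕜) * l := by
    by_cases h0 : a = 0
    · exact ⟨1, norm_one, by simp [h0]⟩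
    · have hn : (‖a‖ : 𝕜) ≠ 0 := by simpa using h0
      refine ⟨a / ((‖a‖ : ℝ) : 𝕜), ?_, ?_⟩
      · rw [norm_div, RCLike.norm_ofReal, abs_norm, div_self]
        simpa using h0
      · field_simp
  refine ⟨a • c, ?_, a • b, ?_, ?_⟩
  · have h1 := convexHull_uni_smul_mem hl hc
    have h0 := zero_mem_convexHull_uni (𝕜 := 𝕜) hne
    have h2 := (convex_convexHull ℝ (uni 𝕜 A)) h1 h0 (norm_nonneg a)
      (sub_nonneg.2 ha) (by ring)
    have h3 : a • c = ‖a‖ • (l • c) := by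
      conv_lhs => rw [hal]
      rw [mul_smul]
      exact algebraMap_smul 𝕜 ‖a‖ (l • c)
    rw [h3]
    simpa using h2
  · rw [mem_ball_zero_iff] at hb ⊢
    rw [norm_smul]
    calc ‖a‖ * ‖b‖ ≤ 1 * ‖b‖ := by gcongr
      _ < r := by rwa [one_mul]
  · simp only [smul_add]

omit [IsScalarTower ℝ 𝕜 X] in
theorem ball_subset_bodyD {A : Set X} (hne : A.Nonempty) (r : ℝ) :
    Metric.ball (0 : X) r ⊆ bodyD 𝕜 A r := by
  intro b hb
  exact ⟨0, zero_mem_convexHull_uni hne, b, hb, by simp⟩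

theorem bodyD_absorbent {A : Set X} (hne : A.Nonempty) {r : ℝ} (hr : 0 < r) :
    Absorbent ℝ (bodyD 𝕜 A r) :=
  (absorbent_ball_zero hr).mono (ball_subset_bodyD hne r)

omit [IsScalarTower ℝ 𝕜 X] in
theorem convexHull_uni_norm_le {A : Set X} {R : ℝ} (hR : ∀ x ∈ A, ‖x‖ ≤ R) :
    ∀ x ∈ convexHull ℝ (uni 𝕜 A), ‖x‖ ≤ R := by
  have h : convexHull ℝ (uni 𝕜 A) ⊆ Metric.closedBall 0 R := by
    apply convexHull_min _ (convex_closedBall _ _)
    rintro _ ⟨l, hl, y, hy, rfl⟩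
    rw [mem_closedBall_zero_iff, norm_smul, hl, one_mul]
    exact hR y hy
  intro x hx
  simpa using h hx

omit [IsScalarTower ℝ 𝕜 X] in
theorem bodyD_subset {A : Set X} {R : ℝ} (hR : ∀ x ∈ A, ‖x‖ ≤ R) (r : ℝ) :
    bodyD 𝕜 A r ⊆ Metric.closedBall 0 (R + r) := by
  rintro _ ⟨c, hc, b, hb, rfl⟩
  rw [mem_ball_zero_iff] at hb
  rw [mem_closedBall_zero_iff]
  have := convexHull_uni_norm_le (𝕜 := 𝕜) hR c hc
  exact (norm_add_le _ _).trans (by linarith)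

/-- The gauge of `bodyD` as a seminorm. -/
noncomputable def pG {A : Set X} (hne : A.Nonempty) {r : ℝ} (hr : 0 < r) : Seminorm 𝕜 X :=
  gaugeSeminorm (bodyD_balanced (𝕜 := 𝕜) hne r) (bodyD_convex A r) (bodyD_absorbent hne hr)

theorem pG_le {A : Set X} (hne : A.Nonempty) {r : ℝ} (hr : 0 < r) (x : X) :
    (pG (𝕜 := 𝕜) hne hr) x ≤ ‖x‖ / r := by
  have := mul_gauge_le_norm (ball_subset_bodyD (𝕜 := 𝕜) hne r) (x := x)
  rw [le_div_iff₀ hr, mul_comm]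
  exact this

theorem norm_le_pG {A : Set X} (hne : A.Nonempty) {r R : ℝ} (hr : 0 < r)
    (hR : ∀ x ∈ A, ‖x‖ ≤ R) (x : X) : ‖x‖ ≤ (R + r) * (pG (𝕜 := 𝕜) hne hr) x := by
  have hRn : 0 ≤ R := by
    obtain ⟨y, hy⟩ := hne
    exact (norm_nonneg y).trans (hR y hy)
  have := le_gauge_of_subset_closedBall (bodyD_absorbent (𝕜 := 𝕜) hne hr) (by positivity : 0 ≤ R + r)
    (bodyD_subset hR r) (x := x)
  rw [div_le_iff₀ (by positivity), mul_comm] at this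
  exact this

theorem pG_le_one_of_mem {A : Set X} (hne : A.Nonempty) {r : ℝ} (hr : 0 < r) {x : X}
    (hx : x ∈ bodyD 𝕜 A r) : (pG (𝕜 := 𝕜) hne hr) x ≤ 1 := gauge_le_one_of_mem hx

theorem mem_of_pG_lt_one {A : Set X} (hne : A.Nonempty) {r : ℝ} (hr : 0 < r) {x : X}
    (hx : (pG (𝕜 := 𝕜) hne hr) x < 1) : x ∈ bodyD 𝕜 A r := by
  have h := setOfPred_gauge_lt_one_eq_self_of_isOpen (bodyD_convex (𝕜 := 𝕜) A r)
    (ball_subset_bodyD (𝕜 := 𝕜) hne r (Metric.mem_ball_self hr)) (bodyD_open (𝕜 := 𝕜) A r)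
  rw [← h]
  exact hx

theorem smul_mem_of_pG_le_one {A : Set X} (hne : A.Nonempty) {r : ℝ} (hr : 0 < r) {x : X}
    (hx : (pG (𝕜 := 𝕜) hne hr) x ≤ 1) {t : ℝ} (ht0 : 0 ≤ t) (ht1 : t < 1) :
    t • x ∈ bodyD 𝕜 A r := by
  apply mem_of_pG_lt_one hne hr
  have h1 : (pG (𝕜 := 𝕜) hne hr) (t • x) = t * (pG (𝕜 := 𝕜) hne hr) x := by
    have : t • x = ((t : ℝ) : 𝕜) • x := (algebraMap_smul 𝕜 t x).symm
    rw [this, map_smul_eq_mul, RCLike.norm_ofReal, abs_of_nonneg ht0]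
  rw [h1]
  nlinarith [apply_nonneg (pG (𝕜 := 𝕜) hne hr) x]

/-- functional vanishing on `A` vanishes on the convex hull of `uni A` -/
theorem convexHull_uni_ker {A : Set X} {k : X →L[𝕜] 𝕜} (hk : ∀ x ∈ A, k x = 0) :
    ∀ x ∈ convexHull ℝ (uni 𝕜 A), k x = 0 := by
  have h : convexHull ℝ (uni 𝕜 A) ⊆ {x | k x = 0} := by
    apply convexHull_min
    · rintro _ ⟨l, hl, y, hy, rfl⟩
      simp [hk y hy]
    · intro x hx y hy a b ha hb hab
      have hx : k x = 0 := hx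
      have hy : k y = 0 := hy
      show k (a • x + b • y) = 0
      have h1 : a • x = ((a : ℝ) : 𝕜) • x := (algebraMap_smul 𝕜 a x).symm
      have h2 : b • y = ((b : ℝ) : 𝕜) • y := (algebraMap_smul 𝕜 b y).symm
      rw [h1, h2, map_add, map_smul, map_smul, hx, hy]
      simp
  exact fun x hx => h hx

/-- Nondentability of the unit ball of `pG` on the kernel of `k`. -/
theorem nd_pG {A : Set X} (hne : A.Nonempty) (hA : Bornology.IsBounded A) {ε : ℝ} (h : ND A ε)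
    {r : ℝ} (hr : 0 < r) {k : X →L[𝕜] 𝕜} (hk : ∀ x ∈ A, k x = 0) :
    ND {y | k y = 0 ∧ (pG (𝕜 := 𝕜) hne hr) y ≤ 1} ε := by
  intro f α hα
  have hW := nd_convexHull (nd_uni (𝕜 := 𝕜) hne hA h)
  obtain ⟨x, hx, y, hy, hxy, hfx, hfy⟩ := hW f (α / 3) (by positivity)
  obtain ⟨b, hb, hbmax⟩ := exists_almost_max (A := {b : X | k b = 0 ∧ ‖b‖ < r})
    (by
      rw [isBounded_iff_forall_norm_le]
      exact ⟨r, fun b hb => hb.2.le⟩) ⟨0, by simpa using hr⟩ f (show 0 < α / 3 by positivity)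
  have hkW := convexHull_uni_ker hk
  have hmem : ∀ x ∈ convexHull ℝ (uni 𝕜 A), x + b ∈ {y | k y = 0 ∧ (pG (𝕜 := 𝕜) hne hr) y ≤ 1} := by
    intro x hx
    refine ⟨by rw [map_add, hkW x hx, hb.1, add_zero], pG_le_one_of_mem hne hr ?_⟩
    exact ⟨x, hx, b, by simpa using hb.2, rfl⟩
  have hbound : ∀ x ∈ convexHull ℝ (uni 𝕜 A), (∀ w ∈ convexHull ℝ (uni 𝕜 A), f w < f x + α / 3) →
      ∀ w ∈ {y | k y = 0 ∧ (pG (𝕜 := 𝕜) hne hr) y ≤ 1}, f w < f (x + b) + α := by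
    intro x hx hxmax w hw
    have hstep : ∀ t : ℝ, 0 ≤ t → t < 1 → t * f w ≤ f (x + b) + 2 * (α / 3) := by
      intro t ht0 ht1
      obtain ⟨c, hc, b', hb', hsum⟩ := smul_mem_of_pG_le_one hne hr hw.2 ht0 ht1
      simp only at hsum
      have hb'r : ‖b'‖ < r := by simpa using hb'
      have hkb' : k b' = 0 := by
        have h1 : k (c + b') = k (t • w) := by rw [hsum]
        have h2 : t • w = ((t : ℝ) : 𝕜) • w := (algebraMap_smul 𝕜 t w).symm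
        rw [map_add, hkW c hc, h2, map_smul, hw.1] at h1
        simpa using h1
      have h3 : t * f w = f c + f b' := by
        rw [← map_add, hsum, map_smul, smul_eq_mul]
      have h4 := hxmax c hc
      have h5 := hbmax b' ⟨hkb', hb'r⟩
      rw [h3, map_add]
      linarith
    have hlim : f w ≤ f (x + b) + 2 * (α / 3) := by
      have htend : Tendsto (fun t : ℝ => t * f w) (𝓝[<] 1) (𝓝 (1 * f w)) := by
        apply Tendsto.mono_left _ nhdsWithin_le_nhds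
        exact (continuous_id.mul continuous_const).tendsto 1
      rw [one_mul] at htend
      apply le_of_tendsto htend
      have h0 : ∀ᶠ t : ℝ in 𝓝[<] 1, 0 ≤ t := by
        apply Filter.Eventually.filter_mono nhdsWithin_le_nhds
        exact (eventually_ge_nhds (by norm_num : (0 : ℝ) < 1))
      filter_upwards [h0, self_mem_nhdsWithin] with t ht0 ht1
      exact hstep t ht0 ht1
    linarith
  refine ⟨x + b, hmem x hx, y + b, hmem y hy, ?_, hbound x hx hfx, hbound y hy hfy⟩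
  rw [add_sub_add_right_eq_sub]
  exact hxy

theorem dist_pG {A : Set X} (hne : A.Nonempty) {r : ℝ} (hr : 0 < r) {x : X}
    (hx : (pG (𝕜 := 𝕜) hne hr) x ≤ 1) {η : ℝ} (hη : 0 < η) :
    ∃ c ∈ convexHull ℝ (uni 𝕜 A), ‖x - c‖ < r + η := by
  set t : ℝ := 1 - min 1 (η / (‖x‖ + 1)) with ht
  have hpos : 0 < ‖x‖ + 1 := by positivity
  have hm : 0 < min 1 (η / (‖x‖ + 1)) := lt_min one_pos (by positivity)
  have ht0 : 0 ≤ t := by
    have := min_le_left 1 (η / (‖x‖ + 1))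
    linarith
  have ht1 : t < 1 := by linarith
  obtain ⟨c, hc, b, hb, hsum⟩ := smul_mem_of_pG_le_one hne hr hx ht0 ht1
  simp only at hsum
  refine ⟨c, hc, ?_⟩
  have h1 : x - c = (1 - t) • x + b := by
    rw [sub_smul, one_smul, ← hsum]; abel
  rw [h1]
  have h2 : ‖(1 - t) • x‖ ≤ η := by
    rw [norm_smul, Real.norm_eq_abs, abs_of_nonneg (by linarith)]
    have h3 : 1 - t ≤ η / (‖x‖ + 1) := by
      have := min_le_right 1 (η / (‖x‖ + 1))
      linarith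
    calc (1 - t) * ‖x‖ ≤ (1 - t) * (‖x‖ + 1) := by
          apply mul_le_mul_of_nonneg_left _ (by linarith); linarith
      _ ≤ η / (‖x‖ + 1) * (‖x‖ + 1) := by gcongr
      _ = η := by field_simp
  have h3 : ‖b‖ < r := by simpa using hb
  calc ‖(1 - t) • x + b‖ ≤ ‖(1 - t) • x‖ + ‖b‖ := norm_add_le _ _
    _ < r + η := by linarith

end Pool.Agent.Helper72_NA
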