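import Mathlib

open Set Filter Topology

namespace Pool.Agent.Helper72_NA

variable {𝕜 : Type*} [RCLike 𝕜] {X : Type*} [AddCommGroup X] [Module 𝕜 X] {ι : Type*}

theorem l2_triangle {a b : ι → ℝ} (ha : ∀ i, 0 ≤ a i) (hb : ∀ i, 0 ≤ b i)
    (hsa : Summable fun i => a i ^ 2) (hsb : Summable fun i => b i ^ 2) :
    (Summable fun i => (a i + b i) ^ 2) ∧
    Real.sqrt (∑' i, (a i + b i) ^ 2) ≤ Real.sqrt (∑' i, a i ^ 2) + Real.sqrt (∑' i, b i ^ 2) := by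
  have h := Real.Lp_add_le_tsum_of_nonneg (p := 2) (f := a) (g := b) (by norm_num) ha hb
    (by simpa using hsa) (by simpa using hsb)
  simp only [Real.rpow_two] at h
  refine ⟨h.1, ?_⟩
  rw [Real.sqrt_eq_rpow, Real.sqrt_eq_rpow, Real.sqrt_eq_rpow]
  exact h.2

/-- The `ℓ²`-combination of a family of seminorms. -/
noncomputable def l2comb (σ : ι → Seminorm 𝕜 X) (hs : ∀ x, Summable fun i => (σ i x) ^ 2) :
    Seminorm 𝕜 X :=
  Seminorm.of (fun x => Real.sqrt (∑' i, (σ i x) ^ 2))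
    (by
      intro x y
      have h := l2_triangle (a := fun i => σ i x) (b := fun i => σ i y)
        (fun i => apply_nonneg _ _) (fun i => apply_nonneg _ _) (hs x) (hs y)
      refine le_trans (Real.sqrt_le_sqrt ?_) h.2
      apply Summable.tsum_le_tsum _ (hs (x + y)) h.1
      intro i
      have h1 := map_add_le_add (σ i) x y
      have h2 := apply_nonneg (σ i) (x + y)
      gcongr)
    (by
      intro a x
      have h1 : (fun i => (σ i (a • x)) ^ 2) = fun i => ‖a‖ ^ 2 * (σ i x) ^ 2 := by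
        funext i
        rw [map_smul_eq_mul, mul_pow]
      rw [h1, tsum_mul_left, Real.sqrt_mul (by positivity), Real.sqrt_sq (norm_nonneg a)])

theorem l2comb_apply (σ : ι → Seminorm 𝕜 X) (hs : ∀ x, Summable fun i => (σ i x) ^ 2) (x : X) :
    l2comb σ hs x = Real.sqrt (∑' i, (σ i x) ^ 2) := rfl

theorem l2comb_sq (σ : ι → Seminorm 𝕜 X) (hs : ∀ x, Summable fun i => (σ i x) ^ 2) (x : X) :
    (l2comb σ hs x) ^ 2 = ∑' i, (σ i x) ^ 2 := by
  rw [l2comb_apply, Real.sq_sqrt]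
  exact tsum_nonneg fun i => sq_nonneg _

theorem le_l2comb (σ : ι → Seminorm 𝕜 X) (hs : ∀ x, Summable fun i => (σ i x) ^ 2) (i : ι) (x : X) :
    σ i x ≤ l2comb σ hs x := by
  rw [l2comb_apply]
  apply Real.le_sqrt_of_sq_le
  exact (hs x).le_tsum i fun j _ => sq_nonneg _

theorem l2comb_key (σ : ι → Seminorm 𝕜 X) (hs : ∀ x, Summable fun i => (σ i x) ^ 2) (i : ι)
    (u v : X) : 2 * (σ i u) ^ 2 + 2 * (σ i v) ^ 2 - (σ i (u + v)) ^ 2 ≤
      2 * (l2comb σ hs u) ^ 2 + 2 * (l2comb σ hs v) ^ 2 - (l2comb σ hs (u + v)) ^ 2 := by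
  rw [l2comb_sq, l2comb_sq, l2comb_sq]
  have h1 : HasSum (fun j => 2 * (σ j u) ^ 2 + 2 * (σ j v) ^ 2 - (σ j (u + v)) ^ 2)
      (2 * (∑' j, (σ j u) ^ 2) + 2 * (∑' j, (σ j v) ^ 2) - ∑' j, (σ j (u + v)) ^ 2) :=
    (((hs u).hasSum.mul_left 2).add ((hs v).hasSum.mul_left 2)).sub (hs (u + v)).hasSum
  rw [← h1.tsum_eq]
  apply h1.summable.le_tsum i
  intro j _
  have h2 := map_add_le_add (σ j) u v
  have h3 := apply_nonneg (σ j) (u + v)
  have h4 := apply_nonneg (σ j) u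
  have h5 := apply_nonneg (σ j) v
  have h6 : (σ j (u + v)) ^ 2 ≤ (σ j u + σ j v) ^ 2 := by gcongr
  nlinarith [sq_nonneg (σ j u - σ j v)]

theorem l2comb_le (σ : ι → Seminorm 𝕜 X) (hs : ∀ x, Summable fun i => (σ i x) ^ 2) {x : X}
    {B : ℝ} (hB : 0 ≤ B) (h : ∑' i, (σ i x) ^ 2 ≤ B ^ 2) : l2comb σ hs x ≤ B := by
  rw [l2comb_apply]
  exact Real.sqrt_le_iff.mpr ⟨hB, h⟩

end Pool.Agent.Helper72_NA
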