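import Pool.Agent.Helper72_NA.L2

open Set Filter Topology
open scoped NNReal

namespace Pool.Agent.Helper72_NA

variable {𝕜 : Type*} [RCLike 𝕜] {X : Type*} [NormedAddCommGroup X] [NormedSpace 𝕜 X]

/-- geometric `ℓ²`-combination of a sequence of seminorms bounded by the norm -/
theorem geo_summable (θ : ℝ≥0) (τ : ℕ → Seminorm 𝕜 X) (hτ : ∀ n x, τ n x ≤ ‖x‖) (x : X) :
    Summable fun n => (((θ * (1 / 2) ^ n : ℝ≥0) • τ n) x) ^ 2 := by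
  have hgeo : Summable fun n : ℕ => ((θ : ℝ) * ‖x‖) ^ 2 * (1 / 4 : ℝ) ^ n :=
    (summable_geometric_of_lt_one (by norm_num) (by norm_num)).mul_left _
  refine Summable.of_nonneg_of_le (fun n => sq_nonneg _) (fun n => ?_) hgeo
  have h1 : ((θ * (1 / 2) ^ n : ℝ≥0) • τ n) x = ((θ : ℝ) * (1 / 2) ^ n) * τ n x := by
    rw [smul_apply, NNReal.smul_def]
    push_cast
    rfl
  rw [h1]
  have h2 := hτ n x
  have h3 := apply_nonneg (τ n) x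
  have h4 : ((θ : ℝ) * (1 / 2) ^ n * τ n x) ^ 2 ≤ ((θ : ℝ) * (1 / 2) ^ n * ‖x‖) ^ 2 := by
    gcongr
  calc ((θ : ℝ) * (1 / 2) ^ n * τ n x) ^ 2 ≤ ((θ : ℝ) * (1 / 2) ^ n * ‖x‖) ^ 2 := h4
    _ = ((θ : ℝ) * ‖x‖) ^ 2 * (1 / 4 : ℝ) ^ n := by
        rw [show (1 / 4 : ℝ) = (1 / 2) ^ 2 by norm_num, ← pow_mul, mul_comm 2 n, pow_mul]
        ring

noncomputable def geoComb (θ : ℝ≥0) (τ : ℕ → Seminorm 𝕜 X) (hτ : ∀ n x, τ n x ≤ ‖x‖) :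
    Seminorm 𝕜 X := l2comb (fun n => (θ * (1 / 2) ^ n : ℝ≥0) • τ n) (geo_summable θ τ hτ)

theorem geoComb_le (θ : ℝ≥0) (τ : ℕ → Seminorm 𝕜 X) (hτ : ∀ n x, τ n x ≤ ‖x‖) (x : X) :
    geoComb θ τ hτ x ≤ 2 * θ * ‖x‖ := by
  apply l2comb_le _ _ (by positivity)
  have hgeo : HasSum (fun n : ℕ => ((θ : ℝ) * ‖x‖) ^ 2 * (1 / 4 : ℝ) ^ n)
      (((θ : ℝ) * ‖x‖) ^ 2 * (1 - 1 / 4)⁻¹) :=
    (hasSum_geometric_of_lt_one (by norm_num) (by norm_num)).mul_left _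
  have hle : ∑' n, (((θ * (1 / 2) ^ n : ℝ≥0) • τ n) x) ^ 2 ≤
      ∑' n : ℕ, ((θ : ℝ) * ‖x‖) ^ 2 * (1 / 4 : ℝ) ^ n := by
    apply Summable.tsum_le_tsum _ (geo_summable θ τ hτ x) hgeo.summable
    intro n
    have h1 : ((θ * (1 / 2) ^ n : ℝ≥0) • τ n) x = ((θ : ℝ) * (1 / 2) ^ n) * τ n x := by
      rw [smul_apply, NNReal.smul_def]
      push_cast
      rfl
    rw [h1]
    have h2 := hτ n x
    have h3 := apply_nonneg (τ n) x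
    have h4 : ((θ : ℝ) * (1 / 2) ^ n * τ n x) ^ 2 ≤ ((θ : ℝ) * (1 / 2) ^ n * ‖x‖) ^ 2 := by
      gcongr
    calc ((θ : ℝ) * (1 / 2) ^ n * τ n x) ^ 2 ≤ ((θ : ℝ) * (1 / 2) ^ n * ‖x‖) ^ 2 := h4
      _ = ((θ : ℝ) * ‖x‖) ^ 2 * (1 / 4 : ℝ) ^ n := by
          rw [show (1 / 4 : ℝ) = (1 / 2) ^ 2 by norm_num, ← pow_mul, mul_comm 2 n, pow_mul]
          ring
  rw [hgeo.tsum_eq] at hle
  refine hle.trans ?_
  have : (1 - 1 / 4 : ℝ)⁻¹ ≤ 4 := by norm_num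
  calc ((θ : ℝ) * ‖x‖) ^ 2 * (1 - 1 / 4)⁻¹ ≤ ((θ : ℝ) * ‖x‖) ^ 2 * 4 := by gcongr
    _ = (2 * θ * ‖x‖) ^ 2 := by ring

theorem geoComb_key {θ : ℝ≥0} {τ : ℕ → Seminorm 𝕜 X} (hτ : ∀ n x, τ n x ≤ ‖x‖) (n : ℕ) (u v : X) :
    ((θ : ℝ) * (1 / 2) ^ n) ^ 2 * (2 * (τ n u) ^ 2 + 2 * (τ n v) ^ 2 - (τ n (u + v)) ^ 2) ≤
      2 * (geoComb θ τ hτ u) ^ 2 + 2 * (geoComb θ τ hτ v) ^ 2 - (geoComb θ τ hτ (u + v)) ^ 2 := by
  have h := l2comb_key (fun n => (θ * (1 / 2) ^ n : ℝ≥0) • τ n) (geo_summable θ τ hτ) n u v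
  have h1 : ∀ x, ((θ * (1 / 2) ^ n : ℝ≥0) • τ n) x = ((θ : ℝ) * (1 / 2) ^ n) * τ n x := by
    intro x
    rw [smul_apply, NNReal.smul_def]
    push_cast
    rfl
  simp only [h1] at h
  refine le_trans (le_of_eq ?_) h
  ring

/-- span of the first `n` terms -/
def Fsp (𝕜 : Type*) [RCLike 𝕜] {X : Type*} [NormedAddCommGroup X] [NormedSpace 𝕜 X] (z : ℕ → X)
    (n : ℕ) : Submodule 𝕜 X := Submodule.span 𝕜 (z '' Iio n)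

instance (z : ℕ → X) (n : ℕ) : FiniteDimensional 𝕜 (Fsp 𝕜 z n) :=
  FiniteDimensional.span_of_finite 𝕜 ((finite_Iio n).image z)

/-- distance to the span of the first `n` terms, as a seminorm -/
noncomputable def sF (𝕜 : Type*) [RCLike 𝕜] {X : Type*} [NormedAddCommGroup X] [NormedSpace 𝕜 X]
    (z : ℕ → X) (n : ℕ) : Seminorm 𝕜 X :=
  (normSeminorm 𝕜 (X ⧸ Fsp 𝕜 z n)).comp (Fsp 𝕜 z n).mkQ

theorem sF_apply (z : ℕ → X) (n : ℕ) (x : X) :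
    sF 𝕜 z n x = ‖(Submodule.Quotient.mk x : X ⧸ Fsp 𝕜 z n)‖ := rfl

theorem sF_le (z : ℕ → X) (n : ℕ) (x : X) : sF 𝕜 z n x ≤ ‖x‖ :=
  Submodule.Quotient.norm_mk_le _ x

theorem sF_le_of_mem (z : ℕ → X) (n : ℕ) (x : X) {f : X} (hf : f ∈ Fsp 𝕜 z n) :
    sF 𝕜 z n x ≤ ‖x - f‖ := by
  have h : (Submodule.Quotient.mk x : X ⧸ Fsp 𝕜 z n) = Submodule.Quotient.mk (x - f) := by
    rw [Submodule.Quotient.eq]
    simpa using hf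
  rw [sF_apply, h]
  exact Submodule.Quotient.norm_mk_le _ _

theorem sF_lt (z : ℕ → X) (n : ℕ) {x : X} {ρ : ℝ} (h : sF 𝕜 z n x < ρ) :
    ∃ f ∈ Fsp 𝕜 z n, ‖x - f‖ < ρ := by
  rw [sF_apply] at h
  obtain ⟨m, hm, hlt⟩ := Submodule.Quotient.norm_mk_lt (S := Fsp 𝕜 z n)
    (Submodule.Quotient.mk x : X ⧸ Fsp 𝕜 z n) (sub_pos.2 h)
  rw [Submodule.Quotient.eq] at hm
  refine ⟨x - m, ?_, ?_⟩
  · have := (Fsp 𝕜 z n).neg_mem hm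
    simpa using this
  · have h2 : x - (x - m) = m := by abel
    rw [h2]
    linarith

theorem norming {z : ℕ → X} {zs : ℕ → X →L[𝕜] 𝕜} (h1 : ∀ j, ‖zs j‖ ≤ 1)
    (h2 : ∀ j, zs j (z j) = (‖z j‖ : 𝕜)) {x : X} (hx : x ∈ closure (range z)) {c : ℝ}
    (hc : ∀ j, ‖zs j x‖ ≤ c) : ‖x‖ ≤ c := by
  apply le_of_forall_pos_le_add
  intro η hη
  obtain ⟨_, ⟨j, rfl⟩, hj⟩ := Metric.mem_closure_iff.1 hx (η / 2) (half_pos hη)
  rw [dist_eq_norm] at hj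
  have h3 : ‖z j‖ = ‖zs j (z j)‖ := by rw [h2, RCLike.norm_ofReal, abs_norm]
  have h4 : ‖zs j (z j)‖ ≤ ‖zs j x‖ + ‖x - z j‖ := by
    have h5 : zs j (z j) = zs j x - zs j (x - z j) := by rw [map_sub]; ring
    rw [h5]
    refine (norm_sub_le _ _).trans ?_
    gcongr
    calc ‖zs j (x - z j)‖ ≤ ‖zs j‖ * ‖x - z j‖ := (zs j).le_opNorm _
      _ ≤ 1 * ‖x - z j‖ := by gcongr; exact h1 j
      _ = ‖x - z j‖ := one_mul _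
  have h6 : ‖x‖ ≤ ‖z j‖ + ‖x - z j‖ := by
    calc ‖x‖ = ‖z j + (x - z j)‖ := by congr 1; abel
      _ ≤ _ := norm_add_le _ _
  have h7 := hc j
  linarith

/-- Approximate rotundity. -/
theorem almost_rot {z : ℕ → X} {zs : ℕ → X →L[𝕜] 𝕜} (h1 : ∀ j, ‖zs j‖ ≤ 1)
    (h2 : ∀ j, zs j (z j) = (‖z j‖ : 𝕜)) {ρ : ℝ} (hρ : 0 < ρ) {a : X} {b b' : ℕ → X} {M : ℝ}
    (hM : ∀ n, ‖b n‖ ≤ M) (hM' : ∀ n, ‖b' n‖ ≤ M)
    {k : ℕ} (hF : (Fsp 𝕜 z k : Set X) ⊆ closure (range z))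
    (hk : sF 𝕜 z k a < 2 * ρ)
    (hs : Tendsto (fun n => sF 𝕜 z k (b n)) atTop (𝓝 (sF 𝕜 z k a)))
    (hs' : Tendsto (fun n => sF 𝕜 z k (b' n)) atTop (𝓝 (sF 𝕜 z k a)))
    (hz : ∀ j, Tendsto (fun n => zs j (b n)) atTop (𝓝 (zs j a)))
    (hz' : ∀ j, Tendsto (fun n => zs j (b' n)) atTop (𝓝 (zs j a))) :
    ∃ n, ‖b n - b' n‖ < 9 * ρ := by
  have hev : ∀ᶠ n in atTop, sF 𝕜 z k (b n) < 2 * ρ := (tendsto_order.1 hs).2 _ hk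
  have hev' : ∀ᶠ n in atTop, sF 𝕜 z k (b' n) < 2 * ρ := (tendsto_order.1 hs').2 _ hk
  obtain ⟨n0, hn0⟩ := (hev.and hev').exists_forall_of_atTop
  have hex : ∀ n, ∃ d : Fsp 𝕜 z k, ‖(b (n + n0) - b' (n + n0)) - (d : X)‖ < 4 * ρ := by
    intro n
    obtain ⟨h3, h4⟩ := hn0 (n + n0) (by omega)
    obtain ⟨f, hf, hf2⟩ := sF_lt z k h3
    obtain ⟨f', hf', hf2'⟩ := sF_lt z k h4
    refine ⟨⟨f - f', (Fsp 𝕜 z k).sub_mem hf hf'⟩, ?_⟩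
    calc ‖(b (n + n0) - b' (n + n0)) - (f - f')‖ = ‖(b (n + n0) - f) - (b' (n + n0) - f')‖ := by
          congr 1; abel
      _ ≤ ‖b (n + n0) - f‖ + ‖b' (n + n0) - f'‖ := norm_sub_le _ _
      _ < 4 * ρ := by linarith
  choose d hd using hex
  have hdb : ∀ n, d n ∈ Metric.closedBall (0 : Fsp 𝕜 z k) (2 * M + 4 * ρ) := by
    intro n
    rw [mem_closedBall_zero_iff]
    have h3 : ‖(d n : X)‖ ≤ ‖b (n + n0) - b' (n + n0)‖ + ‖(b (n + n0) - b' (n + n0)) - (d n : X)‖ := by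
      calc ‖(d n : X)‖ = ‖(b (n + n0) - b' (n + n0)) - ((b (n + n0) - b' (n + n0)) - (d n : X))‖ := by
            congr 1; abel
        _ ≤ _ := norm_sub_le _ _
    have h4 := norm_sub_le (b (n + n0)) (b' (n + n0))
    have h5 := hM (n + n0)
    have h6 := hM' (n + n0)
    have h7 := hd n
    rw [Submodule.coe_norm]
    linarith
  have : ProperSpace (Fsp 𝕜 z k) := FiniteDimensional.proper_rclike 𝕜 _
  obtain ⟨d0, -, φ, hφ, hlim⟩ := (isCompact_closedBall (0 : Fsp 𝕜 z k) (2 * M + 4 * ρ)).tendsto_subseq hdb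
  have hlimX : Tendsto (fun n => ((d (φ n) : Fsp 𝕜 z k) : X)) atTop (𝓝 (d0 : X)) :=
    (continuous_subtype_val.tendsto d0).comp hlim
  have hbound : ∀ j, ‖zs j (d0 : X)‖ ≤ 4 * ρ := by
    intro j
    have h3 : Tendsto (fun n => ‖zs j ((d (φ n) : Fsp 𝕜 z k) : X)‖) atTop (𝓝 ‖zs j (d0 : X)‖) :=
      (((zs j).continuous.tendsto _).comp hlimX).norm
    have hφt : Tendsto (fun n => φ n + n0) atTop atTop :=
      (tendsto_add_atTop_nat n0).comp hφ.tendsto_atTop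
    have h4 : Tendsto (fun n => ‖zs j (b (φ n + n0)) - zs j (b' (φ n + n0))‖ + 4 * ρ) atTop
        (𝓝 (‖zs j a - zs j a‖ + 4 * ρ)) :=
      ((((hz j).comp hφt).sub ((hz' j).comp hφt)).norm).add_const _
    rw [sub_self, norm_zero, zero_add] at h4
    apply le_of_tendsto_of_tendsto' h3 h4
    intro n
    have h5 : zs j (d (φ n) : X) = (zs j (b (φ n + n0)) - zs j (b' (φ n + n0)))
        - zs j ((b (φ n + n0) - b' (φ n + n0)) - (d (φ n) : X)) := by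
      simp only [map_sub]; ring
    rw [h5]
    refine (norm_sub_le _ _).trans ?_
    gcongr
    calc ‖zs j ((b (φ n + n0) - b' (φ n + n0)) - (d (φ n) : X))‖
        ≤ ‖zs j‖ * ‖(b (φ n + n0) - b' (φ n + n0)) - (d (φ n) : X)‖ := (zs j).le_opNorm _
      _ ≤ 1 * (4 * ρ) := by
          have := hd (φ n)
          have := h1 j
          gcongr
      _ = 4 * ρ := one_mul _
  have hd0 : ‖(d0 : X)‖ ≤ 4 * ρ := norming h1 h2 (hF d0.2) hbound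
  have h8 : ∀ᶠ n in atTop, ‖((d (φ n) : Fsp 𝕜 z k) : X)‖ < 5 * ρ :=
    (tendsto_order.1 hlimX.norm).2 _ (by linarith)
  obtain ⟨n, hn⟩ := h8.exists
  refine ⟨φ n + n0, ?_⟩
  have h9 := hd (φ n)
  calc ‖b (φ n + n0) - b' (φ n + n0)‖
      = ‖((b (φ n + n0) - b' (φ n + n0)) - (d (φ n) : X)) + (d (φ n) : X)‖ := by congr 1; abel
    _ ≤ ‖(b (φ n + n0) - b' (φ n + n0)) - (d (φ n) : X)‖ + ‖(d (φ n) : X)‖ := norm_add_le _ _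
    _ < 9 * ρ := by linarith

end Pool.Agent.Helper72_NA
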