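import Pool.Agent.Helper72_NA.Gauge
import Pool.Agent.Helper72_NA.Rot

open Set Filter Topology
open scoped NNReal

namespace Pool.Agent.Helper72_NA

variable {𝕜 : Type*} [RCLike 𝕜] {X : Type*} [NormedAddCommGroup X] [NormedSpace 𝕜 X]
  [NormedSpace ℝ X] [IsScalarTower ℝ 𝕜 X]

/-- absolute value of a functional as a seminorm -/
noncomputable def absF (k : X →L[𝕜] 𝕜) : Seminorm 𝕜 X := (normSeminorm 𝕜 𝕜).comp k.toLinearMap

omit [NormedSpace ℝ X] [IsScalarTower ℝ 𝕜 X] in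
theorem absF_apply (k : X →L[𝕜] 𝕜) (x : X) : absF k x = ‖k x‖ := rfl

/-- projection along `e` onto the kernel of `k` -/
noncomputable def PL (k : X →L[𝕜] 𝕜) (e : X) : X →L[𝕜] X :=
  ContinuousLinearMap.id 𝕜 X - k.smulRight e

omit [NormedSpace ℝ X] [IsScalarTower ℝ 𝕜 X] in
theorem PL_apply (k : X →L[𝕜] 𝕜) (e x : X) : PL k e x = x - k x • e := rfl

omit [NormedSpace ℝ X] [IsScalarTower ℝ 𝕜 X] in
theorem PL_of_ker {k : X →L[𝕜] 𝕜} {e x : X} (h : k x = 0) : PL k e x = x := by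
  rw [PL_apply, h, zero_smul, sub_zero]

omit [NormedSpace ℝ X] [IsScalarTower ℝ 𝕜 X] in
theorem k_PL {k : X →L[𝕜] 𝕜} {e : X} (he : k e = 1) (x : X) : k (PL k e x) = 0 := by
  rw [PL_apply, map_sub, map_smul, he, smul_eq_mul, mul_one, sub_self]

omit [NormedSpace ℝ X] [IsScalarTower ℝ 𝕜 X] in
theorem PL_e {k : X →L[𝕜] 𝕜} {e : X} (he : k e = 1) : PL k e e = 0 := by
  rw [PL_apply, he, one_smul, sub_self]

omit [NormedSpace ℝ X] [IsScalarTower ℝ 𝕜 X] in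
theorem PL_add_e {k : X →L[𝕜] 𝕜} {e : X} (x : X) : x = PL k e x + k x • e := by
  rw [PL_apply]; abel

omit [NormedSpace ℝ X] [IsScalarTower ℝ 𝕜 X] in
/-- A dense sequence adapted to a countable set. -/
theorem exists_seq_span {A : Set X} (hA : A.Countable) : ∃ z : ℕ → X,
    (∀ n, z n ∈ Submodule.span 𝕜 A) ∧ (Submodule.span 𝕜 A : Set X) ⊆ closure (range z) := by
  have hsep : TopologicalSpace.IsSeparable (Submodule.span 𝕜 A : Set X) := hA.isSeparable.span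
  have : TopologicalSpace.SeparableSpace (Submodule.span 𝕜 A : Set X) := hsep.separableSpace
  have : Nonempty (Submodule.span 𝕜 A : Set X) := ⟨⟨0, (Submodule.span 𝕜 A).zero_mem⟩⟩
  refine ⟨fun n => (TopologicalSpace.denseSeq (Submodule.span 𝕜 A : Set X) n : X),
    fun n => (TopologicalSpace.denseSeq (Submodule.span 𝕜 A : Set X) n).2, ?_⟩
  intro x hx
  have hd := TopologicalSpace.denseRange_denseSeq (Submodule.span 𝕜 A : Set X)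
  have h1 : (⟨x, hx⟩ : (Submodule.span 𝕜 A : Set X)) ∈
      closure (range (TopologicalSpace.denseSeq (Submodule.span 𝕜 A : Set X))) := hd _
  rw [closure_subtype] at h1
  rwa [← range_comp] at h1

omit [NormedSpace ℝ X] [IsScalarTower ℝ 𝕜 X] in
/-- norming functionals -/
theorem exists_norming (z : ℕ → X) : ∃ zs : ℕ → X →L[𝕜] 𝕜, (∀ j, ‖zs j‖ ≤ 1) ∧
    ∀ j, zs j (z j) = (‖z j‖ : 𝕜) := by
  have h : ∀ j, ∃ g : X →L[𝕜] 𝕜, ‖g‖ ≤ 1 ∧ g (z j) = (‖z j‖ : 𝕜) := fun j =>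
    exists_dual_vector'' 𝕜 (z j)
  choose zs h1 h2 using h
  exact ⟨zs, h1, h2⟩

section norms

/-- first norm: `(|k|^2 + p(P x)^2)^(1/2)` -/
noncomputable def N1 (k : X →L[𝕜] 𝕜) (e : X) (p : Seminorm 𝕜 X) : Seminorm 𝕜 X :=
  l2comb (ι := Fin 2) ![absF k, p.comp (PL k e).toLinearMap] (fun _ => (hasSum_fintype _).summable)

omit [NormedSpace ℝ X] [IsScalarTower ℝ 𝕜 X] in
theorem N1_sq (k : X →L[𝕜] 𝕜) (e : X) (p : Seminorm 𝕜 X) (x : X) :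
    (N1 k e p x) ^ 2 = ‖k x‖ ^ 2 + (p (PL k e x)) ^ 2 := by
  rw [N1, l2comb_sq, tsum_fintype, Fin.sum_univ_two]
  rfl

/-- second norm: `(|2k|^2 + q1(P x)^2 + q2 (P x)^2)^(1/2)` -/
noncomputable def N2 (k : X →L[𝕜] 𝕜) (e : X) (q1 q2 : Seminorm 𝕜 X) : Seminorm 𝕜 X :=
  l2comb (ι := Fin 3) ![(2 : ℝ≥0) • absF k, q1.comp (PL k e).toLinearMap,
    q2.comp (PL k e).toLinearMap] (fun _ => (hasSum_fintype _).summable)

omit [NormedSpace ℝ X] [IsScalarTower ℝ 𝕜 X] in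
theorem two_absF (k : X →L[𝕜] 𝕜) (x : X) : ((2 : ℝ≥0) • absF k) x = 2 * ‖k x‖ := by
  rw [smul_apply, NNReal.smul_def]
  rfl

omit [NormedSpace ℝ X] [IsScalarTower ℝ 𝕜 X] in
theorem N2_sq (k : X →L[𝕜] 𝕜) (e : X) (q1 q2 : Seminorm 𝕜 X) (x : X) :
    (N2 k e q1 q2 x) ^ 2 = (2 * ‖k x‖) ^ 2 + (q1 (PL k e x)) ^ 2 + (q2 (PL k e x)) ^ 2 := by
  rw [N2, l2comb_sq, tsum_fintype, Fin.sum_univ_three, ← two_absF]
  rfl

omit [NormedSpace ℝ X] [IsScalarTower ℝ 𝕜 X] in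
theorem two_k_le_N2 (k : X →L[𝕜] 𝕜) (e : X) (q1 q2 : Seminorm 𝕜 X) (x : X) :
    2 * ‖k x‖ ≤ N2 k e q1 q2 x := by
  have h := N2_sq k e q1 q2 x
  have h1 := apply_nonneg (N2 k e q1 q2) x
  have h2 := norm_nonneg (k x)
  apply le_of_sq_le_sq _ h1
  nlinarith [sq_nonneg (q1 (PL k e x)), sq_nonneg (q2 (PL k e x))]

omit [NormedSpace ℝ X] [IsScalarTower ℝ 𝕜 X] in
theorem N2_key1 (k : X →L[𝕜] 𝕜) (e : X) (q1 q2 : Seminorm 𝕜 X) (u v : X) :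
    2 * (q1 (PL k e u)) ^ 2 + 2 * (q1 (PL k e v)) ^ 2 - (q1 (PL k e u + PL k e v)) ^ 2 ≤
      2 * (N2 k e q1 q2 u) ^ 2 + 2 * (N2 k e q1 q2 v) ^ 2 - (N2 k e q1 q2 (u + v)) ^ 2 := by
  have h := l2comb_key (ι := Fin 3) ![(2 : ℝ≥0) • absF k, q1.comp (PL k e).toLinearMap,
    q2.comp (PL k e).toLinearMap] (fun _ => (hasSum_fintype _).summable) 1 u v
  rw [← map_add]
  exact h

omit [NormedSpace ℝ X] [IsScalarTower ℝ 𝕜 X] in
theorem N2_key2 (k : X →L[𝕜] 𝕜) (e : X) (q1 q2 : Seminorm 𝕜 X) (u v : X) :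
    2 * (q2 (PL k e u)) ^ 2 + 2 * (q2 (PL k e v)) ^ 2 - (q2 (PL k e u + PL k e v)) ^ 2 ≤
      2 * (N2 k e q1 q2 u) ^ 2 + 2 * (N2 k e q1 q2 v) ^ 2 - (N2 k e q1 q2 (u + v)) ^ 2 := by
  have h := l2comb_key (ι := Fin 3) ![(2 : ℝ≥0) • absF k, q1.comp (PL k e).toLinearMap,
    q2.comp (PL k e).toLinearMap] (fun _ => (hasSum_fintype _).summable) 2 u v
  rw [← map_add]
  exact h

end norms

end Pool.Agent.Helper72_NA
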