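import Mathlib

open Set Filter Topology

namespace Pool.Agent.Helper72_NA

/-! ### Sets all of whose slices are large -/

section real

variable {X : Type*} [NormedAddCommGroup X] [NormedSpace ℝ X]

/-- Every slice of `A` contains two points at distance at least `ε`. -/
def ND (A : Set X) (ε : ℝ) : Prop :=
  ∀ f : X →L[ℝ] ℝ, ∀ α : ℝ, 0 < α → ∃ x ∈ A, ∃ y ∈ A, ε ≤ ‖x - y‖ ∧
    (∀ w ∈ A, f w < f x + α) ∧ (∀ w ∈ A, f w < f y + α)

theorem bddAbove_image {A : Set X} (hA : Bornology.IsBounded A) (f : X →L[ℝ] ℝ) :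
    BddAbove (f '' A) := by
  obtain ⟨R, hR⟩ := hA.exists_norm_le
  refine ⟨‖f‖ * R, ?_⟩
  rintro _ ⟨x, hx, rfl⟩
  calc f x ≤ ‖f x‖ := le_abs_self _
    _ ≤ ‖f‖ * ‖x‖ := f.le_opNorm x
    _ ≤ ‖f‖ * R := by gcongr; exact hR x hx

/-- An almost maximizer of a functional on a bounded nonempty set. -/
theorem exists_almost_max {A : Set X} (hA : Bornology.IsBounded A) (hne : A.Nonempty)
    (f : X →L[ℝ] ℝ) {α : ℝ} (hα : 0 < α) : ∃ x ∈ A, ∀ w ∈ A, f w < f x + α := by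
  have hb := bddAbove_image hA f
  have hne' : (f '' A).Nonempty := hne.image _
  obtain ⟨_, ⟨x, hx, rfl⟩, hlt⟩ := exists_lt_of_lt_csSup hne' (sub_lt_self (sSup (f '' A)) hα)
  refine ⟨x, hx, fun w hw => ?_⟩
  have := le_csSup hb (mem_image_of_mem f hw)
  linarith

/-- From a nondentable bounded nonempty set to a countable subset with large slices. -/
theorem exists_countable_nd {C : Set X} (hne : C.Nonempty) (hb : Bornology.IsBounded C)
    {ε : ℝ} (hd : ∀ x ∈ C, x ∈ closure (convexHull ℝ (C \ Metric.ball x ε))) :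
    ∃ A ⊆ C, A.Countable ∧ A.Nonempty ∧ ND A ε := by
  classical
  -- finite witnesses
  have hw : ∀ x ∈ C, ∀ n : ℕ, ∃ t : Finset X, (t : Set X) ⊆ C \ Metric.ball x ε ∧
      ∃ y ∈ convexHull ℝ (t : Set X), dist x y < 1 / ((n : ℝ) + 1) := by
    intro x hx n
    have hx' := hd x hx
    rw [Metric.mem_closure_iff] at hx'
    obtain ⟨y, hy, hxy⟩ := hx' (1 / ((n : ℝ) + 1)) Nat.one_div_pos_of_nat
    rw [convexHull_eq_union_convexHull_finite_subsets] at hy
    simp only [mem_iUnion] at hy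
    obtain ⟨t, ht, hyt⟩ := hy
    exact ⟨t, ht, y, hyt, hxy⟩
  choose! t ht y hy hxy using hw
  obtain ⟨x0, hx0⟩ := hne
  let S : ℕ → Set X := fun m => Nat.rec {x0} (fun _ A => A ∪ ⋃ x ∈ A, ⋃ n : ℕ, (t x n : Set X)) m
  have hS0 : S 0 = {x0} := rfl
  have hSs : ∀ m, S (m + 1) = S m ∪ ⋃ x ∈ S m, ⋃ n : ℕ, (t x n : Set X) := fun m => rfl
  have hSC : ∀ m, S m ⊆ C := by
    intro m
    induction m with
    | zero => rw [hS0]; simpa using hx0
    | succ m ih =>
      rw [hSs]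
      apply union_subset ih
      apply iUnion₂_subset
      intro x hx
      apply iUnion_subset
      intro n
      exact (ht x (ih hx) n).trans sdiff_subset
  have hSct : ∀ m, (S m).Countable := by
    intro m
    induction m with
    | zero => rw [hS0]; exact countable_singleton _
    | succ m ih =>
      rw [hSs]
      exact ih.union (ih.biUnion fun x _ => countable_iUnion fun n => (t x n).countable_toSet)
  refine ⟨⋃ m, S m, iUnion_subset hSC, countable_iUnion hSct, ⟨x0, mem_iUnion.2 ⟨0, by simp [hS0]⟩⟩, ?_⟩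
  set A := ⋃ m, S m with hA
  have hAC : A ⊆ C := iUnion_subset hSC
  have hAb : Bornology.IsBounded A := hb.subset hAC
  have hAne : A.Nonempty := ⟨x0, mem_iUnion.2 ⟨0, by simp [hS0]⟩⟩
  -- every point of A is in the closed convex hull of the far away points of A
  have hclo : ∀ x ∈ A, x ∈ closure (convexHull ℝ (A \ Metric.ball x ε)) := by
    intro x hx
    obtain ⟨m, hm⟩ := mem_iUnion.1 hx
    rw [Metric.mem_closure_iff]
    intro η hη
    obtain ⟨n, hn⟩ := exists_nat_one_div_lt hη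
    have hxC := hSC m hm
    refine ⟨y x n, ?_, (hxy x hxC n).trans hn⟩
    have hsub : (t x n : Set X) ⊆ A \ Metric.ball x ε := by
      intro z hz
      refine ⟨mem_iUnion.2 ⟨m + 1, ?_⟩, (ht x hxC n hz).2⟩
      rw [hSs]
      exact Or.inr (mem_iUnion₂.2 ⟨x, hm, mem_iUnion.2 ⟨n, hz⟩⟩)
    exact convexHull_mono hsub (hy x hxC n)
  intro f α hα
  obtain ⟨x, hx, hxmax⟩ := exists_almost_max hAb hAne f (half_pos hα)
  have hbd := bddAbove_image hAb f
  set s := sSup (f '' A) with hs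
  have hle : ∀ w ∈ A, f w ≤ s := fun w hw => le_csSup hbd (mem_image_of_mem f hw)
  have hxs : s ≤ f x + α / 2 := by
    apply csSup_le (hAne.image _)
    rintro _ ⟨w, hw, rfl⟩
    exact (hxmax w hw).le
  by_contra hcon
  push Not at hcon
  have hall : ∀ z ∈ A \ Metric.ball x ε, f z ≤ s - α := by
    intro z hz
    by_contra hz'
    push Not at hz'
    have h1 : ε ≤ ‖x - z‖ := by
      have := hz.2
      rw [Metric.mem_ball, not_lt, dist_eq_norm, norm_sub_rev] at this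
      exact this
    obtain ⟨w, hw, hw2⟩ := hcon x hx z hz.1 h1 (fun w hw => by
      have := hxmax w hw
      linarith)
    have := hle w hw
    linarith
  have hcl : closure (convexHull ℝ (A \ Metric.ball x ε)) ⊆ {z | f z ≤ s - α} := by
    apply closure_minimal
    · apply convexHull_min hall
      exact convex_halfSpace_le f.isLinear _
    · exact isClosed_le f.continuous continuous_const
  have := hcl (hclo x hx)
  simp only [mem_ofPred_eq] at this
  linarith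

/-- Large slices pass to the convex hull. -/
theorem nd_convexHull {A : Set X} {ε : ℝ} (h : ND A ε) : ND (convexHull ℝ A) ε := by
  intro f α hα
  obtain ⟨x, hx, y, hy, hxy, hfx, hfy⟩ := h f (α / 2) (half_pos hα)
  refine ⟨x, subset_convexHull ℝ A hx, y, subset_convexHull ℝ A hy, hxy, ?_, ?_⟩
  · intro w hw
    have : convexHull ℝ A ⊆ {z | f z ≤ f x + α / 2} :=
      convexHull_min (fun z hz => (hfx z hz).le) (convex_halfSpace_le f.isLinear _)
    have := this hw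
    simp only [mem_ofPred_eq] at this
    linarith
  · intro w hw
    have : convexHull ℝ A ⊆ {z | f z ≤ f y + α / 2} :=
      convexHull_min (fun z hz => (hfy z hz).le) (convex_halfSpace_le f.isLinear _)
    have := this hw
    simp only [mem_ofPred_eq] at this
    linarith

end real

section rclike

variable {𝕜 : Type*} [RCLike 𝕜] {X : Type*} [NormedAddCommGroup X] [NormedSpace 𝕜 X]
  [NormedSpace ℝ X] [IsScalarTower ℝ 𝕜 X]

/-- real part of a `𝕜`-linear functional -/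
noncomputable def reL (k : X →L[𝕜] 𝕜) : X →L[ℝ] ℝ :=
  (RCLike.reCLM : 𝕜 →L[ℝ] ℝ).comp (k.restrictScalars ℝ)

theorem reL_apply (k : X →L[𝕜] 𝕜) (x : X) : reL k x = RCLike.re (k x) := rfl

/-- unimodular multiples -/
def uni (𝕜 : Type*) [RCLike 𝕜] {X : Type*} [NormedAddCommGroup X] [NormedSpace 𝕜 X] (A : Set X) :
    Set X := {x | ∃ l : 𝕜, ‖l‖ = 1 ∧ ∃ y ∈ A, x = l • y}

omit [NormedSpace ℝ X] [IsScalarTower ℝ 𝕜 X] in
theorem subset_uni (A : Set X) : A ⊆ uni 𝕜 A := fun x hx => ⟨1, norm_one, x, hx, (one_smul _ _).symm⟩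

omit [NormedSpace ℝ X] [IsScalarTower ℝ 𝕜 X] in
theorem uni_bounded {A : Set X} (hA : Bornology.IsBounded A) : Bornology.IsBounded (uni 𝕜 A) := by
  obtain ⟨R, hR⟩ := hA.exists_norm_le
  rw [isBounded_iff_forall_norm_le]
  refine ⟨R, ?_⟩
  rintro _ ⟨l, hl, y, hy, rfl⟩
  rw [norm_smul, hl, one_mul]
  exact hR y hy

theorem nd_uni {A : Set X} {ε : ℝ} (hne : A.Nonempty) (hA : Bornology.IsBounded A) (h : ND A ε) :
    ND (uni 𝕜 A) ε := by
  intro f α hα
  obtain ⟨_, ⟨l, hl, y0, hy0, rfl⟩, hmax⟩ := exists_almost_max (uni_bounded (𝕜 := 𝕜) hA)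
    (hne.mono (subset_uni (𝕜 := 𝕜) A)) f (half_pos hα)
  let M : X →L[ℝ] X := (l • ContinuousLinearMap.id 𝕜 X).restrictScalars ℝ
  have hM : ∀ x, M x = l • x := fun x => rfl
  obtain ⟨x, hx, y, hy, hxy, hfx, hfy⟩ := h (f.comp M) (α / 2) (half_pos hα)
  refine ⟨l • x, ⟨l, hl, x, hx, rfl⟩, l • y, ⟨l, hl, y, hy, rfl⟩, ?_, ?_, ?_⟩
  · rw [← smul_sub, norm_smul, hl, one_mul]
    exact hxy
  · intro w hw
    have h1 := hmax w hw
    have h2 := hfx y0 hy0
    simp only [ContinuousLinearMap.comp_apply, hM] at h2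
    linarith
  · intro w hw
    have h1 := hmax w hw
    have h2 := hfy y0 hy0
    simp only [ContinuousLinearMap.comp_apply, hM] at h2
    linarith

/-- Projecting along one direction keeps slices large (with half the size). -/
theorem nd_proj {A : Set X} {ε : ℝ} (hε : 0 < ε) (hne : A.Nonempty) (hA : Bornology.IsBounded A)
    (h : ND A ε) (k : X →L[𝕜] 𝕜) (e : X) : ND ((fun x => x - k x • e) '' A) (ε / 2) := by
  intro f α hα
  let P : X →L[ℝ] X := (ContinuousLinearMap.id 𝕜 X - k.smulRight e).restrictScalars ℝ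
  have hP : ∀ x, P x = x - k x • e := fun x => rfl
  let f' : X →L[ℝ] ℝ := f.comp P
  have hf' : ∀ x, f' x = f (x - k x • e) := fun x => rfl
  obtain ⟨r0, hr0⟩ := hA.exists_norm_le
  obtain ⟨x0, hx0⟩ := hne
  have hr0n : 0 ≤ r0 := (norm_nonneg x0).trans (hr0 x0 hx0)
  set M1 : ℝ := ‖f'‖ * r0 with hM1
  set M2 : ℝ := ‖k‖ * r0 with hM2
  have hM1b : ∀ x ∈ A, |f' x| ≤ M1 := fun x hx => by
    calc |f' x| = ‖f' x‖ := rfl
      _ ≤ ‖f'‖ * ‖x‖ := f'.le_opNorm x
      _ ≤ M1 := by rw [hM1]; gcongr; exact hr0 x hx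
  have hM2b : ∀ x ∈ A, ‖k x‖ ≤ M2 := fun x hx => by
    calc ‖k x‖ ≤ ‖k‖ * ‖x‖ := k.le_opNorm x
      _ ≤ M2 := by rw [hM2]; gcongr; exact hr0 x hx
  have hM2n : 0 ≤ M2 := (norm_nonneg _).trans (hM2b x0 hx0)
  set c : ℝ := min (α / 2) (ε / (4 * (‖e‖ + 1))) with hc
  have hen : 0 < ‖e‖ + 1 := by positivity
  have hcpos : 0 < c := lt_min (by positivity) (by positivity)
  set γ : ℝ := c ^ 2 / 3 with hγ
  have hγpos : 0 < γ := by positivity
  set R : ℝ := M1 + (M2 ^ 2 + γ) / α with hR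
  let Q : X → ℝ := fun x => (f' x + R) ^ 2 + ‖k x‖ ^ 2
  have hQ : ∀ x, Q x = (f' x + R) ^ 2 + ‖k x‖ ^ 2 := fun x => rfl
  -- Q is bounded above on A
  have hQb : BddAbove (Q '' A) := by
    refine ⟨(M1 + |R|) ^ 2 + M2 ^ 2, ?_⟩
    rintro _ ⟨x, hx, rfl⟩
    rw [hQ]
    have h1 : |f' x + R| ≤ M1 + |R| := (abs_add_le _ _).trans (by gcongr; exact hM1b x hx)
    have h2 : (f' x + R) ^ 2 ≤ (M1 + |R|) ^ 2 := by
      rw [← sq_abs (f' x + R)]
      gcongr
    have h3 := hM2b x hx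
    gcongr
  obtain ⟨_, ⟨x1, hx1, rfl⟩, hlt⟩ := exists_lt_of_lt_csSup (Set.Nonempty.image Q ⟨x0, hx0⟩)
    (sub_lt_self (sSup (Q '' A)) hγpos)
  have hx1max : ∀ w ∈ A, Q w < Q x1 + γ := by
    intro w hw
    have := le_csSup hQb (mem_image_of_mem Q hw)
    linarith
  let Θ : X →L[ℝ] ℝ := (f' x1 + R) • f' + (reL ((starRingEnd 𝕜 (k x1)) • k))
  have hΘ : ∀ x, Θ x = (f' x1 + R) * f' x + RCLike.re (starRingEnd 𝕜 (k x1) * k x) := fun x => rfl
  obtain ⟨x, hx, y, hy, hxy, hfx, hfy⟩ := h Θ γ hγpos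
  have hclose : ∀ z ∈ A, (∀ w ∈ A, Θ w < Θ z + γ) →
      (f' z - f' x1) ^ 2 + ‖k z - k x1‖ ^ 2 < c ^ 2 := by
    intro z hz hzmax
    have h1 := hzmax x1 hx1
    have h2 := hx1max z hz
    rw [hΘ, hΘ] at h1
    rw [hQ, hQ] at h2
    have h3 : RCLike.re (starRingEnd 𝕜 (k x1) * k x1) = ‖k x1‖ ^ 2 := by
      rw [RCLike.conj_mul]
      norm_cast
    have h4 : ‖k z - k x1‖ ^ 2 = ‖k z‖ ^ 2 + ‖k x1‖ ^ 2 - 2 * RCLike.re (starRingEnd 𝕜 (k x1) * k z) := by
      have := @norm_sub_sq 𝕜 𝕜 _ _ _ (k x1) (k z)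
      rw [norm_sub_rev, this, RCLike.inner_apply, mul_comm (k z)]
      ring
    rw [h3] at h1
    rw [h4]
    have h5 : c ^ 2 = 3 * γ := by rw [hγ]; ring
    rw [h5]
    nlinarith
  have hcx := hclose x hx hfx
  have hcy := hclose y hy hfy
  have habs : ∀ z, (f' z - f' x1) ^ 2 + ‖k z - k x1‖ ^ 2 < c ^ 2 →
      |f' z - f' x1| < c ∧ ‖k z - k x1‖ < c := by
    intro z hz
    constructor
    · apply abs_lt_of_sq_lt_sq _ hcpos.le
      have := sq_nonneg ‖k z - k x1‖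
      linarith
    · apply lt_of_pow_lt_pow_left₀ 2 hcpos.le
      have := sq_nonneg (f' z - f' x1)
      linarith
  obtain ⟨hx2, hx3⟩ := habs x hcx
  obtain ⟨hy2, hy3⟩ := habs y hcy
  have hmax1 : ∀ w ∈ A, f' w < f' x1 + α / 2 := by
    intro w hw
    by_contra hcon
    push Not at hcon
    have h1 := hx1max w hw
    rw [hQ, hQ] at h1
    have h2 := abs_le.1 (hM1b w hw)
    have h3 := abs_le.1 (hM1b x1 hx1)
    have h4 := hM2b x1 hx1
    have h5 : ‖k x1‖ ^ 2 ≤ M2 ^ 2 := by gcongr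
    have h6 := sq_nonneg ‖k w‖
    have h7 : (f' w - f' x1) * (f' w + f' x1 + 2 * R) < M2 ^ 2 + γ := by nlinarith
    have h8 : 2 * ((M2 ^ 2 + γ) / α) ≤ f' w + f' x1 + 2 * R := by rw [hR]; linarith
    have h9 : α / 2 * (2 * ((M2 ^ 2 + γ) / α)) ≤ (f' w - f' x1) * (f' w + f' x1 + 2 * R) := by
      apply mul_le_mul (by linarith) h8 (by positivity) (by linarith)
    have h10 : α / 2 * (2 * ((M2 ^ 2 + γ) / α)) = M2 ^ 2 + γ := by field_simp
    linarith
  have hcα : c ≤ α / 2 := min_le_left _ _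
  have hce : c * (4 * (‖e‖ + 1)) ≤ ε := by
    have : c ≤ ε / (4 * (‖e‖ + 1)) := min_le_right _ _
    rwa [le_div_iff₀ (by positivity)] at this
  refine ⟨_, mem_image_of_mem _ hx, _, mem_image_of_mem _ hy, ?_, ?_, ?_⟩
  · have h1 : (x - k x • e) - (y - k y • e) = (x - y) - (k x - k y) • e := by
      rw [sub_smul]; abel
    have h2 : ‖k x - k y‖ ≤ 2 * c := by
      calc ‖k x - k y‖ = ‖(k x - k x1) - (k y - k x1)‖ := by ring_nf
        _ ≤ ‖k x - k x1‖ + ‖k y - k x1‖ := norm_sub_le _ _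
        _ ≤ 2 * c := by linarith
    rw [h1]
    have h3 : ‖x - y‖ - ‖(k x - k y) • e‖ ≤ ‖(x - y) - (k x - k y) • e‖ := norm_sub_norm_le _ _
    rw [norm_smul] at h3
    have h4 : ‖k x - k y‖ * ‖e‖ ≤ 2 * c * (‖e‖ + 1) := by
      have := norm_nonneg e
      calc ‖k x - k y‖ * ‖e‖ ≤ 2 * c * ‖e‖ := by gcongr
        _ ≤ 2 * c * (‖e‖ + 1) := by nlinarith
    linarith
  · rintro _ ⟨w, hw, rfl⟩
    have h1 := hmax1 w hw
    have h2 := (abs_lt.1 hx2).1
    show f' w < f' x + α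
    linarith
  · rintro _ ⟨w, hw, rfl⟩
    have h1 := hmax1 w hw
    have h2 := (abs_lt.1 hy2).1
    show f' w < f' y + α
    linarith

end rclike

end Pool.Agent.Helper72_NA
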